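import Mathlib

set_option autoImplicit false

open Set Filter Topology
open scoped ContDiff

namespace Pool.Agent.Y304.Gav

/-- `g'` -/
noncomputable def gd (f G g : ℝ) : ℝ :=
  (1 - G ^ 2 + f * g - 2 * f * G * g ^ 2 - 3 / 4 * f ^ 2 * g ^ 4) / (G * g - 1 + 1 / 2 * f * g ^ 3)

/-- `G'` -/
noncomputable def Gd (f G g : ℝ) : ℝ :=
  -2 * f * G - 1 / 2 * f * g * gd f G g - 3 / 4 * f ^ 2 * g ^ 2

noncomputable def vf (s : ℝ × ℝ × ℝ × ℝ) : ℝ × ℝ × ℝ × ℝ :=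
  (-(3 / 2) * s.1 ^ 2, Gd s.1 s.2.1 s.2.2.1, gd s.1 s.2.1 s.2.2.1, s.1)

def dom : Set (ℝ × ℝ × ℝ × ℝ) :=
  {s | s.2.1 * s.2.2.1 - 1 + 1 / 2 * s.1 * s.2.2.1 ^ 3 ≠ 0}

lemma isOpen_dom : IsOpen dom := by
  have : Continuous fun s : ℝ × ℝ × ℝ × ℝ => s.2.1 * s.2.2.1 - 1 + 1 / 2 * s.1 * s.2.2.1 ^ 3 := by
    fun_prop
  exact isOpen_ne_fun this continuous_const

lemma contDiffOn_vf : ContDiffOn ℝ ∞ vf dom := by
  have h : ContDiffOn ℝ ∞ (fun s : ℝ × ℝ × ℝ × ℝ => gd s.1 s.2.1 s.2.2.1) dom := by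
    unfold gd
    refine ContDiffOn.div (by fun_prop) (by fun_prop) ?_
    intro s hs
    exact hs
  unfold vf Gd
  fun_prop

lemma contDiffAt_vf {s : ℝ × ℝ × ℝ × ℝ} (hs : s ∈ dom) : ContDiffAt ℝ ∞ vf s :=
  contDiffOn_vf.contDiffAt (isOpen_dom.mem_nhds hs)

/-- bootstrapping -/
lemma smooth_of_ode {E : Type*} [NormedAddCommGroup E] [NormedSpace ℝ E] {v : E → E} {D : Set E}
    (hv : ContDiffOn ℝ ∞ v D) {I : Set ℝ} (hI : IsOpen I)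
    {α : ℝ → E} (hα : ∀ t ∈ I, HasDerivAt α (v (α t)) t) (hD : MapsTo α I D) :
    ContDiffOn ℝ ∞ α I := by
  rw [contDiffOn_infty]
  intro n
  induction n with
  | zero =>
    simp only [Nat.cast_zero, contDiffOn_zero]
    exact fun t ht => (hα t ht).continuousAt.continuousWithinAt
  | succ n ih =>
    push_cast
    rw [contDiffOn_succ_iff_deriv_of_isOpen hI]
    refine ⟨fun t ht => (hα t ht).differentiableAt.differentiableWithinAt, by simp, ?_⟩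
    have h1 : ContDiffOn ℝ n (v ∘ α) I := (hv.of_le (by exact_mod_cast le_top)).comp ih hD
    exact h1.congr fun t ht => (hα t ht).deriv

/-- The solution of the ODE system. -/
theorem exists_ode : ∃ (δ : ℝ) (f G g P : ℝ → ℝ), 0 < δ ∧
    f 0 = 1 / 2 ∧ G 0 = 0 ∧ g 0 = 0 ∧
    ContDiffOn ℝ ∞ f (Ioo (-δ) δ) ∧ ContDiffOn ℝ ∞ G (Ioo (-δ) δ) ∧
    ContDiffOn ℝ ∞ g (Ioo (-δ) δ) ∧ ContDiffOn ℝ ∞ P (Ioo (-δ) δ) ∧
    (∀ t ∈ Ioo (-δ) δ, 0 < f t) ∧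
    (∀ t ∈ Ioo (-δ) δ, G t * g t - 1 + 1 / 2 * f t * g t ^ 3 ≠ 0) ∧
    (∀ t ∈ Ioo (-δ) δ, HasDerivAt f (-(3 / 2) * f t ^ 2) t) ∧
    (∀ t ∈ Ioo (-δ) δ, HasDerivAt G (Gd (f t) (G t) (g t)) t) ∧
    (∀ t ∈ Ioo (-δ) δ, HasDerivAt g (gd (f t) (G t) (g t)) t) ∧
    (∀ t ∈ Ioo (-δ) δ, HasDerivAt P (f t) t) := by
  set s₀ : ℝ × ℝ × ℝ × ℝ := (1 / 2, 0, 0, 0) with hs₀
  have hs₀d : s₀ ∈ dom := by simp [dom, hs₀]
  obtain ⟨α, hα0, ε, hε, hα⟩ :=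
    ((contDiffAt_vf hs₀d).of_le (by exact_mod_cast le_top : (1 : WithTop ℕ∞) ≤ ∞)).exists_forall_mem_closedBall_exists_eq_forall_mem_Ioo_hasDerivAt₀ 0
  simp only [zero_sub, zero_add] at hα
  have hc : ContinuousAt α 0 := (hα 0 ⟨by linarith, hε⟩).continuousAt
  have hev : ∀ᶠ t in 𝓝 (0 : ℝ), α t ∈ dom ∧ 0 < (α t).1 := by
    have h1 : ∀ᶠ s in 𝓝 (α 0), s ∈ dom := by rw [hα0]; exact isOpen_dom.mem_nhds hs₀d
    have h2 : ∀ᶠ s in 𝓝 (α 0), 0 < s.1 := by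
      rw [hα0]
      exact continuous_fst.continuousAt.eventually (lt_mem_nhds (by simp [hs₀]))
    exact hc.eventually (h1.and h2)
  obtain ⟨δ₀, hδ₀, hδ₀'⟩ := Metric.eventually_nhds_iff.1 hev
  set δ := min δ₀ ε with hδ
  have hδpos : 0 < δ := lt_min hδ₀ hε
  have hI : ∀ t ∈ Ioo (-δ) δ, HasDerivAt α (vf (α t)) t ∧ α t ∈ dom ∧ 0 < (α t).1 := by
    intro t ht
    have h1 : |t| < δ := abs_lt.2 ht
    refine ⟨hα t (abs_lt.1 (lt_of_lt_of_le h1 (min_le_right _ _))), ?_⟩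
    apply hδ₀'
    rw [Real.dist_eq, sub_zero]
    exact lt_of_lt_of_le h1 (min_le_left _ _)
  have hsm : ContDiffOn ℝ ∞ α (Ioo (-δ) δ) :=
    smooth_of_ode contDiffOn_vf isOpen_Ioo (fun t ht => (hI t ht).1) (fun t ht => (hI t ht).2.1)
  refine ⟨δ, fun t => (α t).1, fun t => (α t).2.1, fun t => (α t).2.2.1, fun t => (α t).2.2.2,
    hδpos, by simp [hα0, hs₀], by simp [hα0, hs₀], by simp [hα0, hs₀],
    contDiff_fst.comp_contDiffOn hsm,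
    (contDiff_fst.comp contDiff_snd).comp_contDiffOn hsm,
    (contDiff_fst.comp (contDiff_snd.comp contDiff_snd)).comp_contDiffOn hsm,
    (contDiff_snd.comp (contDiff_snd.comp contDiff_snd)).comp_contDiffOn hsm,
    fun t ht => (hI t ht).2.2, fun t ht => (hI t ht).2.1, ?_, ?_, ?_, ?_⟩
  · intro t ht
    exact (hI t ht).1.fst
  · intro t ht
    exact (hI t ht).1.snd.fst
  · intro t ht
    exact (hI t ht).1.snd.snd.fst
  · intro t ht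
    exact (hI t ht).1.snd.snd.snd

end Pool.Agent.Y304.Gav
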