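import Mathlib
import Pool.Agent.Y304.Gav.Ode

set_option autoImplicit false

open Set Filter Topology
open scoped ContDiff

namespace Pool.Agent.Y304.Gav

/-- closedness identity; `f' = -(3/2) f²`, `G' = Gd`, `g' = gd` -/
lemma key_identity (f G g R : ℝ) (hD : G * g - 1 + 1 / 2 * f * g ^ 3 ≠ 0) :
    (R * (1 / 2 * (-(3 / 2) * f ^ 2) * R + Gd f G g) - gd f G g) *
        (R - 1 - R * (1 / 2 * f * R + G) ^ 2 - g ^ 2 + 2 * g * (1 / 2 * f * R + G))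
      - 1 / 2 * (R * (1 / 2 * f * R + G) - g) *
        (-2 * R * (1 / 2 * f * R + G) * (1 / 2 * (-(3 / 2) * f ^ 2) * R + Gd f G g)
          - 2 * g * gd f G g + 2 * gd f G g * (1 / 2 * f * R + G)
          + 2 * g * (1 / 2 * (-(3 / 2) * f ^ 2) * R + Gd f G g))
      = (R - 1) * (1 - (1 / 2 * f * R + G) ^ 2 - R * (1 / 2 * f * R + G) * f + g * f) := by
  have h3 : gd f G g * (G * g - 1 + 1 / 2 * f * g ^ 3) =
      1 - G ^ 2 + f * g - 2 * f * G * g ^ 2 - 3 / 4 * f ^ 2 * g ^ 4 := by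
    unfold gd
    exact div_mul_cancel₀ _ hD
  have h2 : Gd f G g = -2 * f * G - 1 / 2 * f * g * gd f G g - 3 / 4 * f ^ 2 * g ^ 2 := rfl
  rw [h2]
  linear_combination (R - 1) * h3

/-- data of the ODE solution -/
structure Data where
  δ : ℝ
  f : ℝ → ℝ
  G : ℝ → ℝ
  g : ℝ → ℝ
  P : ℝ → ℝ
  δ_pos : 0 < δ
  f_zero : f 0 = 1 / 2
  G_zero : G 0 = 0
  g_zero : g 0 = 0
  f_smooth : ContDiffOn ℝ ∞ f (Ioo (-δ) δ)
  G_smooth : ContDiffOn ℝ ∞ G (Ioo (-δ) δ)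
  g_smooth : ContDiffOn ℝ ∞ g (Ioo (-δ) δ)
  P_smooth : ContDiffOn ℝ ∞ P (Ioo (-δ) δ)
  f_pos : ∀ t ∈ Ioo (-δ) δ, 0 < f t
  D_ne : ∀ t ∈ Ioo (-δ) δ, G t * g t - 1 + 1 / 2 * f t * g t ^ 3 ≠ 0
  f_deriv : ∀ t ∈ Ioo (-δ) δ, HasDerivAt f (-(3 / 2) * f t ^ 2) t
  G_deriv : ∀ t ∈ Ioo (-δ) δ, HasDerivAt G (Gd (f t) (G t) (g t)) t
  g_deriv : ∀ t ∈ Ioo (-δ) δ, HasDerivAt g (gd (f t) (G t) (g t)) t
  P_deriv : ∀ t ∈ Ioo (-δ) δ, HasDerivAt P (f t) t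

lemma exists_data : Nonempty Data := by
  obtain ⟨δ, f, G, g, P, h⟩ := exists_ode
  obtain ⟨h0, h1, h2, h3, h4, h5, h6, h7, h8, h9, h10, h11, h12, h13⟩ := h
  exact ⟨⟨δ, f, G, g, P, h0, h1, h2, h3, h4, h5, h6, h7, h8, h9, h10, h11, h12, h13⟩⟩

namespace Data

variable (d : Data)

noncomputable def W (a : ℝ × ℝ) : ℝ := 1 / 2 * d.f a.2 * a.1 + d.G a.2
noncomputable def y (a : ℝ × ℝ) : ℝ := a.1 * d.W a - d.g a.2
noncomputable def E (a : ℝ × ℝ) : ℝ :=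
  a.1 - 1 - a.1 * d.W a ^ 2 - d.g a.2 ^ 2 + 2 * d.g a.2 * d.W a
noncomputable def q (a : ℝ × ℝ) : ℝ := √(d.E a)

noncomputable def Wt (a : ℝ × ℝ) : ℝ :=
  1 / 2 * (-(3 / 2) * d.f a.2 ^ 2) * a.1 + Gd (d.f a.2) (d.G a.2) (d.g a.2)
noncomputable def yt (a : ℝ × ℝ) : ℝ := a.1 * d.Wt a - gd (d.f a.2) (d.G a.2) (d.g a.2)
noncomputable def Et (a : ℝ × ℝ) : ℝ :=
  -2 * a.1 * d.W a * d.Wt a - 2 * d.g a.2 * gd (d.f a.2) (d.G a.2) (d.g a.2)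
    + 2 * gd (d.f a.2) (d.G a.2) (d.g a.2) * d.W a + 2 * d.g a.2 * d.Wt a
noncomputable def ER (a : ℝ × ℝ) : ℝ :=
  1 - d.W a ^ 2 - a.1 * d.W a * d.f a.2 + d.g a.2 * d.f a.2

lemma key (a : ℝ × ℝ) (ha : a.2 ∈ Ioo (-d.δ) d.δ) :
    d.yt a * d.E a - 1 / 2 * d.y a * d.Et a = (a.1 - 1) * d.ER a := by
  have := key_identity (d.f a.2) (d.G a.2) (d.g a.2) a.1 (d.D_ne _ ha)
  exact this

/-- strip -/
def strip : Set (ℝ × ℝ) := {a | a.2 ∈ Ioo (-d.δ) d.δ}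

lemma isOpen_strip : IsOpen d.strip := isOpen_Ioo.preimage continuous_snd

lemma contDiffOn_W : ContDiffOn ℝ ∞ d.W d.strip := by
  have hf : ContDiffOn ℝ ∞ (fun a : ℝ × ℝ => d.f a.2) d.strip :=
    d.f_smooth.comp contDiff_snd.contDiffOn (fun a ha => ha)
  have hG : ContDiffOn ℝ ∞ (fun a : ℝ × ℝ => d.G a.2) d.strip :=
    d.G_smooth.comp contDiff_snd.contDiffOn (fun a ha => ha)
  unfold W
  fun_prop

lemma contDiffOn_g : ContDiffOn ℝ ∞ (fun a : ℝ × ℝ => d.g a.2) d.strip :=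
  d.g_smooth.comp contDiff_snd.contDiffOn (fun a ha => ha)

lemma contDiffOn_y : ContDiffOn ℝ ∞ d.y d.strip := by
  have h1 := d.contDiffOn_W
  have h2 := d.contDiffOn_g
  unfold y
  fun_prop

lemma contDiffOn_E : ContDiffOn ℝ ∞ d.E d.strip := by
  have h1 := d.contDiffOn_W
  have h2 := d.contDiffOn_g
  unfold E
  fun_prop

/-- derivative of `W` -/
lemma hasFDerivAt_W (a : ℝ × ℝ) (ha : a.2 ∈ Ioo (-d.δ) d.δ) :
    HasFDerivAt d.W ((1 / 2 * d.f a.2) • ContinuousLinearMap.fst ℝ ℝ ℝ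
      + d.Wt a • ContinuousLinearMap.snd ℝ ℝ ℝ) a := by
  have hf : HasFDerivAt (fun a : ℝ × ℝ => d.f a.2) ((-(3 / 2) * d.f a.2 ^ 2) •
      ContinuousLinearMap.snd ℝ ℝ ℝ) a :=
    (d.f_deriv _ ha).comp_hasFDerivAt a hasFDerivAt_snd
  have hG : HasFDerivAt (fun a : ℝ × ℝ => d.G a.2) ((Gd (d.f a.2) (d.G a.2) (d.g a.2)) •
      ContinuousLinearMap.snd ℝ ℝ ℝ) a :=
    (d.G_deriv _ ha).comp_hasFDerivAt a hasFDerivAt_snd
  have := ((hf.const_mul (1/2)).mul (hasFDerivAt_fst (𝕜 := ℝ) (E := ℝ) (F := ℝ) (p := a))).add hG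
  refine this.congr_fderiv ?_
  ext <;> simp [Wt] <;> ring

lemma hasFDerivAt_g (a : ℝ × ℝ) (ha : a.2 ∈ Ioo (-d.δ) d.δ) :
    HasFDerivAt (fun a : ℝ × ℝ => d.g a.2) ((gd (d.f a.2) (d.G a.2) (d.g a.2)) •
      ContinuousLinearMap.snd ℝ ℝ ℝ) a :=
  (d.g_deriv _ ha).comp_hasFDerivAt a hasFDerivAt_snd

lemma hasFDerivAt_y (a : ℝ × ℝ) (ha : a.2 ∈ Ioo (-d.δ) d.δ) :
    HasFDerivAt d.y ((d.W a + a.1 * (1 / 2 * d.f a.2)) • ContinuousLinearMap.fst ℝ ℝ ℝ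
      + d.yt a • ContinuousLinearMap.snd ℝ ℝ ℝ) a := by
  have := ((hasFDerivAt_fst (𝕜 := ℝ) (E := ℝ) (F := ℝ) (p := a)).mul (d.hasFDerivAt_W a ha)).sub
    (d.hasFDerivAt_g a ha)
  refine this.congr_fderiv ?_
  ext <;> simp [yt] <;> ring

lemma hasFDerivAt_E (a : ℝ × ℝ) (ha : a.2 ∈ Ioo (-d.δ) d.δ) :
    HasFDerivAt d.E (d.ER a • ContinuousLinearMap.fst ℝ ℝ ℝ
      + d.Et a • ContinuousLinearMap.snd ℝ ℝ ℝ) a := by
  have hW := d.hasFDerivAt_W a ha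
  have hg := d.hasFDerivAt_g a ha
  have h1 := hasFDerivAt_fst (𝕜 := ℝ) (E := ℝ) (F := ℝ) (p := a)
  have := (((h1.sub_const 1).sub (h1.mul (hW.pow 2))).sub (hg.pow 2)).add ((hg.const_mul 2).mul hW)
  refine this.congr_fderiv ?_
  ext <;> simp [ER, Et] <;> ring

/-- the good region -/
def good : Set (ℝ × ℝ) := {a | a.2 ∈ Ioo (-d.δ) d.δ ∧ 1 < a.1 ∧ 0 < d.E a}

lemma isOpen_good : IsOpen d.good := by
  have h1 : IsOpen (d.strip ∩ d.E ⁻¹' (Ioi 0)) :=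
    d.contDiffOn_E.continuousOn.isOpen_inter_preimage d.isOpen_strip isOpen_Ioi
  have h2 : IsOpen {a : ℝ × ℝ | 1 < a.1} := isOpen_lt continuous_const continuous_fst
  have : d.good = (d.strip ∩ d.E ⁻¹' (Ioi 0)) ∩ {a : ℝ × ℝ | 1 < a.1} := by
    ext a
    simp only [good, strip, Set.mem_ofPred_eq, mem_inter_iff, mem_preimage, mem_Ioi]
    tauto
  rw [this]
  exact h1.inter h2

lemma base_mem : ((2, 0) : ℝ × ℝ) ∈ d.good := by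
  refine ⟨⟨by simpa using d.δ_pos, d.δ_pos⟩, by norm_num, ?_⟩
  simp [E, W, d.f_zero, d.G_zero, d.g_zero]
  norm_num

lemma contDiffOn_q : ContDiffOn ℝ ∞ d.q d.good := by
  unfold q
  exact (d.contDiffOn_E.mono fun a ha => ha.1).sqrt fun a ha => ha.2.2.ne'

lemma q_pos {a : ℝ × ℝ} (ha : a ∈ d.good) : 0 < d.q a := Real.sqrt_pos.2 ha.2.2

lemma q_sq {a : ℝ × ℝ} (ha : a ∈ d.good) : d.q a ^ 2 = d.E a := Real.sq_sqrt ha.2.2.le

lemma hasFDerivAt_q {a : ℝ × ℝ} (ha : a ∈ d.good) :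
    HasFDerivAt d.q ((d.ER a / (2 * d.q a)) • ContinuousLinearMap.fst ℝ ℝ ℝ
      + (d.Et a / (2 * d.q a)) • ContinuousLinearMap.snd ℝ ℝ ℝ) a := by
  have := (d.hasFDerivAt_E a ha.1).sqrt ha.2.2.ne'
  refine this.congr_fderiv ?_
  ext <;> simp [q] <;> ring

/-- coefficient of `dR` -/
noncomputable def B (a : ℝ × ℝ) : ℝ := -(d.y a / (2 * (a.1 - 1) * d.q a))

/-- coefficient of `dt` -/
noncomputable def A (a : ℝ × ℝ) : ℝ := 1 / d.q a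

noncomputable def om (a : ℝ × ℝ) : ℝ × ℝ →L[ℝ] ℝ :=
  d.B a • ContinuousLinearMap.fst ℝ ℝ ℝ + d.A a • ContinuousLinearMap.snd ℝ ℝ ℝ

lemma contDiffOn_A : ContDiffOn ℝ ∞ d.A d.good := by
  have := d.contDiffOn_q
  unfold A
  exact contDiffOn_const.div this fun a ha => (d.q_pos ha).ne'

lemma contDiffOn_B : ContDiffOn ℝ ∞ d.B d.good := by
  have h1 := d.contDiffOn_q
  have h2 := d.contDiffOn_y.mono (fun a ha => ha.1 : d.good ⊆ d.strip)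
  unfold B
  refine (h2.div (by fun_prop) fun a ha => ?_).neg
  have h3 := (d.q_pos ha).ne'
  have h4 : a.1 - 1 ≠ 0 := (sub_pos.2 ha.2.1).ne'
  positivity

lemma contDiffOn_om : ContDiffOn ℝ ∞ d.om d.good := by
  have h1 := d.contDiffOn_A
  have h2 := d.contDiffOn_B
  unfold om
  fun_prop

lemma hasFDerivAt_A {a : ℝ × ℝ} (ha : a ∈ d.good) :
    HasFDerivAt d.A ((-(d.ER a / (2 * d.q a ^ 3))) • ContinuousLinearMap.fst ℝ ℝ ℝ
      + (-(d.Et a / (2 * d.q a ^ 3))) • ContinuousLinearMap.snd ℝ ℝ ℝ) a := by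
  have hq := (d.q_pos ha).ne'
  have := (hasDerivAt_inv hq).comp_hasFDerivAt a (d.hasFDerivAt_q ha)
  have h2 : d.A = fun a => (d.q a)⁻¹ := by
    ext a; simp [A]
  rw [h2]
  refine this.congr_fderiv ?_
  ext <;> simp <;> field_simp

lemma clm_eq (L : ℝ × ℝ →L[ℝ] ℝ) : L = L (1, 0) • ContinuousLinearMap.fst ℝ ℝ ℝ
    + L (0, 1) • ContinuousLinearMap.snd ℝ ℝ ℝ := by
  ext <;> simp

lemma hasFDerivAt_B {a : ℝ × ℝ} (ha : a ∈ d.good) :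
    ∃ b : ℝ, HasFDerivAt d.B (b • ContinuousLinearMap.fst ℝ ℝ ℝ
      + (-(d.yt a / (2 * (a.1 - 1) * d.q a) - d.y a * d.Et a / (4 * (a.1 - 1) * d.q a ^ 3)))
        • ContinuousLinearMap.snd ℝ ℝ ℝ) a := by
  have hq := (d.q_pos ha).ne'
  have h4 : a.1 - 1 ≠ 0 := (sub_pos.2 ha.2.1).ne'
  have h1 := hasFDerivAt_fst (𝕜 := ℝ) (E := ℝ) (F := ℝ) (p := a)
  have h5 := (((h1.sub_const 1).const_mul 2).mul (d.hasFDerivAt_q ha))
  have h6 : 2 * (a.1 - 1) * d.q a ≠ 0 := by positivity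
  have h7 := (hasDerivAt_inv h6).comp_hasFDerivAt a h5
  have h8 := ((d.hasFDerivAt_y a ha.1).mul h7).neg
  have h9 : d.B = fun a => -(d.y a * (2 * (a.1 - 1) * d.q a)⁻¹) := by
    ext a; simp [B, div_eq_mul_inv]
  refine ⟨-(d.y a * (-((2 * (a.1 - 1) * d.q a) ^ 2)⁻¹ * ((2 * (a.1 - 1)) *
    (d.ER a / (2 * d.q a)) + d.q a * 2)) + (2 * (a.1 - 1) * d.q a)⁻¹ *
      (d.W a + a.1 * (1 / 2 * d.f a.2))), ?_⟩
  rw [h9]
  refine h8.congr_fderiv ?_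
  apply ContinuousLinearMap.ext
  rintro ⟨v, w⟩
  simp only [ContinuousLinearMap.neg_apply, ContinuousLinearMap.add_apply,
    ContinuousLinearMap.smul_apply, ContinuousLinearMap.coe_fst', ContinuousLinearMap.coe_snd',
    smul_eq_mul, Function.comp, Pi.mul_apply]
  field_simp
  ring

lemma closed {a : ℝ × ℝ} (ha : a ∈ d.good) (x y : ℝ × ℝ) :
    fderiv ℝ d.om a x y = fderiv ℝ d.om a y x := by
  obtain ⟨b, hb⟩ := d.hasFDerivAt_B ha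
  have hA := d.hasFDerivAt_A ha
  have h : HasFDerivAt d.om _ a :=
    (hb.smul_const (ContinuousLinearMap.fst ℝ ℝ ℝ)).add
      (hA.smul_const (ContinuousLinearMap.snd ℝ ℝ ℝ))
  rw [h.fderiv]
  have hq := (d.q_pos ha).ne'
  have h4 : a.1 - 1 ≠ 0 := (sub_pos.2 ha.2.1).ne'
  have key : -(d.yt a / (2 * (a.1 - 1) * d.q a) - d.y a * d.Et a / (4 * (a.1 - 1) * d.q a ^ 3))
      = -(d.ER a / (2 * d.q a ^ 3)) := by
    have h1 := d.key a ha.1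
    rw [← d.q_sq ha] at h1
    field_simp
    linear_combination (-4) * h1
  simp only [ContinuousLinearMap.add_apply, ContinuousLinearMap.smulRight_apply,
    ContinuousLinearMap.smul_apply, ContinuousLinearMap.coe_fst', ContinuousLinearMap.coe_snd',
    smul_eq_mul, key]
  ring

/-- the potential -/
theorem exists_potential : ∃ (s : Set (ℝ × ℝ)) (Ξ : ℝ × ℝ → ℝ), IsOpen s ∧ (2, 0) ∈ s ∧
    s ⊆ d.good ∧ (∀ a ∈ s, HasFDerivAt Ξ (d.om a) a) ∧ ContDiffOn ℝ 1 Ξ s := by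
  obtain ⟨r, hr, hrs⟩ := Metric.isOpen_iff.1 d.isOpen_good _ d.base_mem
  have hsm : ContDiffOn ℝ ∞ d.om (Metric.ball ((2, 0) : ℝ × ℝ) r) := d.contDiffOn_om.mono hrs
  obtain ⟨Ξ, hΞ⟩ := (convex_ball ((2, 0) : ℝ × ℝ) r).exists_forall_hasFDerivAt_of_fderiv_symmetric
    Metric.isOpen_ball (hsm.differentiableOn (by simp))
    (fun a ha x y => d.closed (hrs ha) x y)
  refine ⟨_, Ξ, Metric.isOpen_ball, Metric.mem_ball_self hr, hrs, hΞ, ?_⟩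
  have h01 : (1 : WithTop ℕ∞) = 0 + 1 := by norm_num
  rw [h01, contDiffOn_succ_iff_fderiv_of_isOpen Metric.isOpen_ball]
  refine ⟨fun a ha => (hΞ a ha).differentiableAt.differentiableWithinAt, by simp, ?_⟩
  rw [contDiffOn_zero]
  exact hsm.continuousOn.congr fun a ha => (hΞ a ha).fderiv

end Data

end Pool.Agent.Y304.Gav
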