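import Mathlib
import Pool.Agent.Y304.Gav.Alg

set_option autoImplicit false

open Set Filter Topology
open scoped ContDiff

namespace Pool.Agent.Y304.Gav

abbrev E3 : Type := EuclideanSpace ℝ (Fin 3)

/-- coordinate functional -/
noncomputable abbrev co (i : Fin 3) : E3 →L[ℝ] ℝ := EuclideanSpace.proj i

lemma hasFDerivAt_co (i : Fin 3) (x : E3) : HasFDerivAt (fun y : E3 => y i) (co i) x :=
  (co i).hasFDerivAt

/-- `R = x² + y² + 1` -/
def RR (x : E3) : ℝ := x 0 ^ 2 + x 1 ^ 2 + 1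

/-- `ξ = z - θ` -/
noncomputable def xi (x : E3) : ℝ := x 2 - Real.arctan (x 1 / x 0)

noncomputable def dRR (x : E3) : E3 →L[ℝ] ℝ := (2 * x 0) • co 0 + (2 * x 1) • co 1

noncomputable def dxi (x : E3) : E3 →L[ℝ] ℝ :=
  co 2 + (x 1 / (x 0 ^ 2 + x 1 ^ 2)) • co 0 - (x 0 / (x 0 ^ 2 + x 1 ^ 2)) • co 1

lemma hasFDerivAt_RR (x : E3) : HasFDerivAt RR (dRR x) x := by
  have := (((hasFDerivAt_co 0 x).pow 2).add ((hasFDerivAt_co 1 x).pow 2)).add_const 1
  refine this.congr_fderiv ?_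
  ext v
  simp [dRR]

lemma hasFDerivAt_xi {x : E3} (hx : x 0 ≠ 0) : HasFDerivAt xi (dxi x) x := by
  have h0 := hasFDerivAt_co 0 x
  have h1 := hasFDerivAt_co 1 x
  have h3 := (h1.mul ((hasDerivAt_inv hx).comp_hasFDerivAt x h0)).arctan
  have := (hasFDerivAt_co 2 x).sub h3
  have hne : x 0 ^ 2 + x 1 ^ 2 ≠ 0 := by positivity
  have e : xi = fun y : E3 => y 2 - Real.arctan (y 1 * (y 0)⁻¹) := by
    ext y; simp [xi, div_eq_mul_inv]
  rw [e]
  refine this.congr_fderiv ?_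
  ext v
  simp [dxi]
  field_simp
  ring

lemma contDiff_RR : ContDiff ℝ ∞ RR := by
  unfold RR
  fun_prop

lemma contDiffAt_xi {x : E3} (hx : x 0 ≠ 0) : ContDiffAt ℝ ∞ xi x := by
  unfold xi
  have : ContDiffAt ℝ ∞ (fun x : E3 => x 1 / x 0) x := by
    refine ContDiffAt.div (by fun_prop) (by fun_prop) hx
  have h2 : ContDiffAt ℝ ∞ (fun x : E3 => Real.arctan (x 1 / x 0)) x :=
    Real.contDiff_arctan.contDiffAt.comp x this
  fun_prop

noncomputable def base : E3 := !₂[1, 0, 0]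

lemma base_RR : RR base = 2 := by simp [RR, base]; norm_num

lemma base_0 : base 0 = 1 := by simp [base]

/-- The scalar function `t(x)` whose level sets are the isobaric surfaces. -/
theorem exists_scalar (d : Data) : ∃ (r : ℝ) (τ : E3 → ℝ), 0 < r ∧
    (∀ x ∈ Metric.ball base r, x 0 ≠ 0 ∧ (RR x, τ x) ∈ d.good ∧
      HasFDerivAt τ ((d.y (RR x, τ x) / (2 * (RR x - 1))) • dRR x
        + d.q (RR x, τ x) • dxi x) x) := by
  obtain ⟨s, Ξ, hso, hs0, hsg, hΞ, hΞ1⟩ := d.exists_potential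
  set F : E3 × ℝ → ℝ := fun z => Ξ (RR z.1, z.2) - xi z.1 with hF
  have hinner : ContDiffAt ℝ 1 (fun z : E3 × ℝ => (RR z.1, z.2)) (base, 0) := by
    have h1 : ContDiff ℝ 1 RR := contDiff_RR.of_le (by exact_mod_cast le_top)
    have h2 : ContDiff ℝ 1 (fun z : E3 × ℝ => RR z.1) := h1.comp contDiff_fst
    exact (h2.prodMk contDiff_snd).contDiffAt
  have hF1 : ContDiffAt ℝ 1 F (base, 0) := by
    have h1 : ContDiffAt ℝ 1 Ξ (RR base, (0:ℝ)) := by
      rw [base_RR]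
      exact hΞ1.contDiffAt (hso.mem_nhds hs0)
    have h2 : ContDiffAt ℝ 1 (fun z : E3 × ℝ => xi z.1) (base, 0) := by
      have : ContDiffAt ℝ 1 xi base :=
        (contDiffAt_xi (x := base) (by rw [base_0]; norm_num)).of_le (by exact_mod_cast le_top)
      exact this.comp (base, (0:ℝ)) contDiffAt_fst
    exact (h1.comp (base, (0:ℝ)) hinner).sub h2
  -- general derivative of F
  have hFd : ∀ z : E3 × ℝ, z.1 0 ≠ 0 → (RR z.1, z.2) ∈ s → HasFDerivAt F
      ((d.om (RR z.1, z.2)) ∘L ((dRR z.1 ∘L ContinuousLinearMap.fst ℝ E3 ℝ).prod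
        (ContinuousLinearMap.snd ℝ E3 ℝ)) - dxi z.1 ∘L ContinuousLinearMap.fst ℝ E3 ℝ) z := by
    intro z hz0 hzs
    have h1 : HasFDerivAt (fun z : E3 × ℝ => RR z.1) (dRR z.1 ∘L ContinuousLinearMap.fst ℝ E3 ℝ) z :=
      (hasFDerivAt_RR z.1).comp z hasFDerivAt_fst
    have h2 : HasFDerivAt (fun z : E3 × ℝ => (RR z.1, z.2)) ((dRR z.1 ∘L ContinuousLinearMap.fst ℝ E3 ℝ).prod
        (ContinuousLinearMap.snd ℝ E3 ℝ)) z := h1.prodMk hasFDerivAt_snd
    have h3 : HasFDerivAt (fun z : E3 × ℝ => xi z.1) (dxi z.1 ∘L ContinuousLinearMap.fst ℝ E3 ℝ) z :=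
      (hasFDerivAt_xi hz0).comp z hasFDerivAt_fst
    exact ((hΞ _ hzs).comp z h2).sub h3
  have hb0 : base 0 ≠ 0 := by rw [base_0]; norm_num
  have hbs : (RR base, (0:ℝ)) ∈ s := by rw [base_RR]; exact hs0
  have hinv : (fderiv ℝ F (base, 0) ∘L .inr ℝ E3 ℝ).IsInvertible := by
    rw [(hFd (base, 0) hb0 hbs).fderiv]
    have hA : d.A (RR base, 0) ≠ 0 := by
      have := (d.q_pos (hsg hbs)).ne'
      simp only [Data.A]
      positivity
    refine ⟨ContinuousLinearEquiv.unitsEquivAut ℝ (Units.mk0 _ hA), ?_⟩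
    ext
    simp [Data.om]
  set τ := hF1.implicitFunction one_ne_zero hinv with hτ
  have hτ0 : τ base = 0 := hF1.implicitFunction_apply_self one_ne_zero hinv
  have hτ1 : ContDiffAt ℝ 1 τ base := hF1.contDiffAt_implicitFunction one_ne_zero hinv
  have hτeq : ∀ᶠ x in 𝓝 base, F (x, τ x) = F (base, 0) :=
    hF1.eventually_apply_implicitFunction one_ne_zero hinv
  have hτeq' : ∀ᶠ x in 𝓝 base, ∀ᶠ x' in 𝓝 x, F (x', τ x') = F (base, 0) :=
    eventually_eventually_nhds.2 hτeq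
  have hτd : ∀ᶠ x in 𝓝 base, DifferentiableAt ℝ τ x := by
    have := hτ1.eventually (by simp)
    filter_upwards [this] with x hx using hx.differentiableAt one_ne_zero
  have hxs : ∀ᶠ x in 𝓝 base, (RR x, τ x) ∈ s := by
    have hc : ContinuousAt (fun x => (RR x, τ x)) base :=
      contDiff_RR.continuous.continuousAt.prodMk hτ1.continuousAt
    refine hc.eventually (hso.mem_nhds ?_)
    show (RR base, τ base) ∈ s
    rw [hτ0]; exact hbs
  have hx0 : ∀ᶠ x : E3 in 𝓝 base, x 0 ≠ 0 := by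
    have : Continuous fun x : E3 => x 0 := by fun_prop
    exact this.continuousAt.eventually_ne hb0
  obtain ⟨r, hr, H⟩ := Metric.eventually_nhds_iff_ball.1 (hτeq'.and (hτd.and (hxs.and hx0)))
  refine ⟨r, τ, hr, fun x hx => ?_⟩
  obtain ⟨h1, h2, h3, h4⟩ := H x hx
  refine ⟨h4, hsg h3, ?_⟩
  have hd := h2.hasFDerivAt
  have h5' : HasFDerivAt (fun x' : E3 => (x', τ x'))
      ((ContinuousLinearMap.id ℝ E3).prod (fderiv ℝ τ x)) x := (hasFDerivAt_id x).prodMk hd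
  have h5 := (hFd (x, τ x) h4 h3).comp x h5'
  have h6 : HasFDerivAt (fun x' => F (x', τ x')) (0 : E3 →L[ℝ] ℝ) x :=
    (hasFDerivAt_const (F (base, 0)) x).congr_of_eventuallyEq h1
  have h7 := h5.unique h6
  have hg := hsg h3
  have hq := (d.q_pos hg).ne'
  have hR : RR x - 1 ≠ 0 := (sub_pos.2 hg.2.1).ne'
  refine hd.congr_fderiv ?_
  ext v
  have h8 := congrArg (fun L : E3 →L[ℝ] ℝ => L v) h7
  simp only [Data.om, Data.A, Data.B, ContinuousLinearMap.comp_apply, ContinuousLinearMap.sub_apply,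
    ContinuousLinearMap.prod_apply, ContinuousLinearMap.add_apply, ContinuousLinearMap.smul_apply,
    ContinuousLinearMap.coe_fst', ContinuousLinearMap.coe_snd', ContinuousLinearMap.coe_id', id,
    smul_eq_mul, ContinuousLinearMap.zero_apply] at h8 ⊢
  field_simp at h8 ⊢
  linear_combination h8

end Pool.Agent.Y304.Gav
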