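import Mathlib
import Pool.Agent.Y304.Gav.Implicit

set_option autoImplicit false

open Set Filter Topology
open scoped ContDiff

namespace Pool.Agent.Y304.Gav

/-- bootstrapping for total differential equations -/
lemma smooth_of_pfaff {E F : Type*} [NormedAddCommGroup E] [NormedSpace ℝ E]
    [NormedAddCommGroup F] [NormedSpace ℝ F] {Φ : E × F → E →L[ℝ] F} {D : Set (E × F)}
    (hΦ : ContDiffOn ℝ ∞ Φ D) {U : Set E} (hU : IsOpen U)
    {τ : E → F} (hτ : ∀ x ∈ U, HasFDerivAt τ (Φ (x, τ x)) x) (hD : ∀ x ∈ U, (x, τ x) ∈ D) :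
    ContDiffOn ℝ ∞ τ U := by
  rw [contDiffOn_infty]
  intro n
  induction n with
  | zero =>
    simp only [Nat.cast_zero, contDiffOn_zero]
    exact fun t ht => (hτ t ht).continuousAt.continuousWithinAt
  | succ n ih =>
    push_cast
    rw [contDiffOn_succ_iff_fderiv_of_isOpen hU]
    refine ⟨fun t ht => (hτ t ht).differentiableAt.differentiableWithinAt, by simp, ?_⟩
    have h1 : ContDiffOn ℝ n (fun x => Φ (x, τ x)) U :=
      (hΦ.of_le (by exact_mod_cast le_top)).comp (contDiffOn_id.prodMk ih) hD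
    exact h1.congr fun t ht => (hτ t ht).fderiv

namespace Data

variable (d : Data)

noncomputable def al (a : ℝ × ℝ) : ℝ := -(d.q a / (a.1 - 1))
noncomputable def be (a : ℝ × ℝ) : ℝ := (d.g a.2 - d.W a) / (a.1 - 1)

lemma contDiffOn_al : ContDiffOn ℝ ∞ d.al d.good := by
  have h1 := d.contDiffOn_q
  unfold al
  exact (h1.div (by fun_prop) fun a ha => (sub_pos.2 ha.2.1).ne').neg

lemma contDiffOn_be : ContDiffOn ℝ ∞ d.be d.good := by
  have h1 := d.contDiffOn_W.mono (fun a ha => ha.1 : d.good ⊆ d.strip)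
  have h2 := d.contDiffOn_g.mono (fun a ha => ha.1 : d.good ⊆ d.strip)
  unfold be
  exact (h2.sub h1).div (by fun_prop) fun a ha => (sub_pos.2 ha.2.1).ne'

lemma hasFDerivAt_al {a : ℝ × ℝ} (ha : a ∈ d.good) :
    HasFDerivAt d.al ((-(d.ER a / (2 * d.q a * (a.1 - 1))) + d.q a / (a.1 - 1) ^ 2) •
      ContinuousLinearMap.fst ℝ ℝ ℝ
      + (-(d.Et a / (2 * d.q a * (a.1 - 1)))) • ContinuousLinearMap.snd ℝ ℝ ℝ) a := by
  have hq := (d.q_pos ha).ne'
  have h4 : a.1 - 1 ≠ 0 := (sub_pos.2 ha.2.1).ne'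
  have h1 := hasFDerivAt_fst (𝕜 := ℝ) (E := ℝ) (F := ℝ) (p := a)
  have h7 := (hasDerivAt_inv h4).comp_hasFDerivAt a (h1.sub_const 1)
  have h8 := ((d.hasFDerivAt_q ha).mul h7).neg
  have e : d.al = fun a => -(d.q a * (a.1 - 1)⁻¹) := by
    ext a; simp [al, div_eq_mul_inv]
  rw [e]
  refine h8.congr_fderiv ?_
  apply ContinuousLinearMap.ext
  rintro ⟨v, w⟩
  simp only [ContinuousLinearMap.neg_apply, ContinuousLinearMap.add_apply,
    ContinuousLinearMap.smul_apply, ContinuousLinearMap.coe_fst', ContinuousLinearMap.coe_snd',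
    smul_eq_mul, Function.comp]
  field_simp
  ring

lemma hasFDerivAt_be {a : ℝ × ℝ} (ha : a ∈ d.good) :
    HasFDerivAt d.be ((-(1 / 2 * d.f a.2 / (a.1 - 1)) - (d.g a.2 - d.W a) / (a.1 - 1) ^ 2) •
      ContinuousLinearMap.fst ℝ ℝ ℝ
      + ((gd (d.f a.2) (d.G a.2) (d.g a.2) - d.Wt a) / (a.1 - 1)) •
        ContinuousLinearMap.snd ℝ ℝ ℝ) a := by
  have h4 : a.1 - 1 ≠ 0 := (sub_pos.2 ha.2.1).ne'
  have h1 := hasFDerivAt_fst (𝕜 := ℝ) (E := ℝ) (F := ℝ) (p := a)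
  have h7 := (hasDerivAt_inv h4).comp_hasFDerivAt a (h1.sub_const 1)
  have h8 := (((d.hasFDerivAt_g a ha.1).sub (d.hasFDerivAt_W a ha.1)).mul h7)
  have e : d.be = fun a => ((d.g a.2 - d.W a) * (a.1 - 1)⁻¹) := by
    ext a; simp [be, div_eq_mul_inv]
  rw [e]
  refine h8.congr_fderiv ?_
  apply ContinuousLinearMap.ext
  rintro ⟨v, w⟩
  simp only [ContinuousLinearMap.neg_apply, ContinuousLinearMap.add_apply,
    ContinuousLinearMap.sub_apply, Pi.sub_apply,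
    ContinuousLinearMap.smul_apply, ContinuousLinearMap.coe_fst', ContinuousLinearMap.coe_snd',
    smul_eq_mul, Function.comp]
  field_simp
  ring

end Data

/-- the setting: a data set and a scalar function as provided by `exists_scalar` -/
structure Setup where
  d : Data
  r : ℝ
  τ : E3 → ℝ
  r_pos : 0 < r
  x0 : ∀ x ∈ Metric.ball base r, x 0 ≠ 0
  mem : ∀ x ∈ Metric.ball base r, (RR x, τ x) ∈ d.good
  deriv : ∀ x ∈ Metric.ball base r, HasFDerivAt τ ((d.y (RR x, τ x) / (2 * (RR x - 1))) • dRR x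
        + d.q (RR x, τ x) • dxi x) x

lemma exists_setup : Nonempty Setup := by
  obtain ⟨d⟩ := exists_data
  obtain ⟨r, τ, h1, h2⟩ := exists_scalar d
  exact ⟨⟨d, r, τ, h1, fun x hx => (h2 x hx).1, fun x hx => (h2 x hx).2.1, fun x hx => (h2 x hx).2.2⟩⟩

namespace Setup

variable (s : Setup)

/-- the domain -/
def U : Set E3 := Metric.ball base s.r

/-- derivative of `τ` -/
noncomputable def dτ (x : E3) : E3 →L[ℝ] ℝ :=
  (s.d.y (RR x, s.τ x) / (2 * (RR x - 1))) • dRR x + s.d.q (RR x, s.τ x) • dxi x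

noncomputable def pt (x : E3) : ℝ × ℝ := (RR x, s.τ x)

lemma hasFDerivAt_pt {x : E3} (hx : x ∈ s.U) :
    HasFDerivAt s.pt ((dRR x).prod (s.dτ x)) x :=
  (hasFDerivAt_RR x).prodMk (s.deriv x hx)

lemma contDiffOn_τ : ContDiffOn ℝ ∞ s.τ s.U := by
  set Φ : E3 × ℝ → E3 →L[ℝ] ℝ := fun z =>
    (s.d.y (RR z.1, z.2) / (2 * (RR z.1 - 1))) • dRR z.1 + s.d.q (RR z.1, z.2) • dxi z.1
  set D : Set (E3 × ℝ) := {z | z.1 0 ≠ 0 ∧ (RR z.1, z.2) ∈ s.d.good}
  have hRR : ContDiff ℝ ∞ (fun z : E3 × ℝ => RR z.1) := contDiff_RR.comp contDiff_fst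
  have hm : ContDiff ℝ ∞ (fun z : E3 × ℝ => (RR z.1, z.2)) := hRR.prodMk contDiff_snd
  have hy : ContDiffOn ℝ ∞ (fun z : E3 × ℝ => s.d.y (RR z.1, z.2)) D :=
    (s.d.contDiffOn_y.mono (fun a ha => ha.1 : s.d.good ⊆ s.d.strip)).comp hm.contDiffOn
      (fun z hz => hz.2)
  have hq : ContDiffOn ℝ ∞ (fun z : E3 × ℝ => s.d.q (RR z.1, z.2)) D :=
    s.d.contDiffOn_q.comp hm.contDiffOn (fun z hz => hz.2)
  have hne : ∀ z ∈ D, z.1 0 ^ 2 + z.1 1 ^ 2 ≠ 0 := by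
    intro z hz
    have := hz.1
    positivity
  have hdRR : ContDiff ℝ ∞ (fun z : E3 × ℝ => dRR z.1) := by
    unfold dRR
    fun_prop
  have hdxi : ContDiffOn ℝ ∞ (fun z : E3 × ℝ => dxi z.1) D := by
    unfold dxi
    have h1 : ContDiffOn ℝ ∞ (fun z : E3 × ℝ => z.1 1 / (z.1 0 ^ 2 + z.1 1 ^ 2)) D :=
      ContDiffOn.div (by fun_prop) (by fun_prop) hne
    have h2 : ContDiffOn ℝ ∞ (fun z : E3 × ℝ => z.1 0 / (z.1 0 ^ 2 + z.1 1 ^ 2)) D :=
      ContDiffOn.div (by fun_prop) (by fun_prop) hne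
    fun_prop
  have hΦ : ContDiffOn ℝ ∞ Φ D := by
    have h3 : ContDiffOn ℝ ∞ (fun z : E3 × ℝ => s.d.y (RR z.1, z.2) / (2 * (RR z.1 - 1))) D := by
      refine hy.div (contDiffOn_const.mul (hRR.contDiffOn.sub contDiffOn_const)) ?_
      intro z hz
      have : RR z.1 - 1 ≠ 0 := (sub_pos.2 hz.2.2.1).ne'
      positivity
    exact (h3.smul hdRR.contDiffOn).add (hq.smul hdxi)
  exact smooth_of_pfaff hΦ Metric.isOpen_ball (fun x hx => s.deriv x hx)
    (fun x hx => ⟨s.x0 x hx, s.mem x hx⟩)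

lemma contDiffOn_pt : ContDiffOn ℝ ∞ s.pt s.U :=
  contDiff_RR.contDiffOn.prodMk s.contDiffOn_τ

/-- The velocity. -/
noncomputable def u (x : E3) : E3 :=
  !₂[s.d.al (s.pt x) * x 0 - s.d.be (s.pt x) * x 1,
     s.d.al (s.pt x) * x 1 + s.d.be (s.pt x) * x 0,
     s.d.W (s.pt x)]

/-- The pressure. -/
noncomputable def p (x : E3) : ℝ := s.d.P (s.τ x)

lemma contDiffOn_p : ContDiffOn ℝ ∞ s.p s.U :=
  s.d.P_smooth.comp s.contDiffOn_τ (fun x hx => (s.mem x hx).1)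

lemma contDiffOn_u : ContDiffOn ℝ ∞ s.u s.U := by
  have h1 : ContDiffOn ℝ ∞ (fun x => s.d.al (s.pt x)) s.U :=
    s.d.contDiffOn_al.comp s.contDiffOn_pt (fun x hx => s.mem x hx)
  have h2 : ContDiffOn ℝ ∞ (fun x => s.d.be (s.pt x)) s.U :=
    s.d.contDiffOn_be.comp s.contDiffOn_pt (fun x hx => s.mem x hx)
  have h3 : ContDiffOn ℝ ∞ (fun x => s.d.W (s.pt x)) s.U :=
    s.d.contDiffOn_W.comp s.contDiffOn_pt (fun x hx => (s.mem x hx).1)
  rw [contDiffOn_euclidean]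
  intro i
  fin_cases i
  · simp only [u]
    simp
    fun_prop
  · simp only [u]
    simp
    fun_prop
  · simp only [u]
    simpa using h3

end Setup

end Pool.Agent.Y304.Gav
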