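import Mathlib
import Pool.Agent.Y304.Gav.Flow

set_option autoImplicit false

open Set Filter Topology
open scoped ContDiff

namespace Pool.Agent.Y304.Gav

/-- purely algebraic lemmas -/
lemma alg_div (X Y R q W y g f Wt gdv yt Et ER E : ℝ) (hρ : X ^ 2 + Y ^ 2 = R - 1)
    (hρ0 : R - 1 ≠ 0) (hq : q ≠ 0) (hE : q ^ 2 = E)
    (hy : y = R * W - g) (hyt : yt = R * Wt - gdv)
    (key : yt * E - 1 / 2 * y * Et = (R - 1) * ER) :
    ((-(ER / (2 * q * (R - 1))) + q / (R - 1) ^ 2) * (2 * X)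
        + (-(Et / (2 * q * (R - 1)))) * (y / (2 * (R - 1)) * (2 * X) + q * (Y / (X ^ 2 + Y ^ 2)))) * X
      + -(q / (R - 1))
      - ((-(1 / 2 * f / (R - 1)) - (g - W) / (R - 1) ^ 2) * (2 * X)
        + ((gdv - Wt) / (R - 1)) * (y / (2 * (R - 1)) * (2 * X) + q * (Y / (X ^ 2 + Y ^ 2)))) * Y
      + (((-(ER / (2 * q * (R - 1))) + q / (R - 1) ^ 2) * (2 * Y)
        + (-(Et / (2 * q * (R - 1)))) * (y / (2 * (R - 1)) * (2 * Y) - q * (X / (X ^ 2 + Y ^ 2)))) * Y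
      + -(q / (R - 1))
      + ((-(1 / 2 * f / (R - 1)) - (g - W) / (R - 1) ^ 2) * (2 * Y)
        + ((gdv - Wt) / (R - 1)) * (y / (2 * (R - 1)) * (2 * Y) - q * (X / (X ^ 2 + Y ^ 2)))) * X)
      + Wt * q = 0 := by
  rw [hρ]
  have hR : R = X ^ 2 + Y ^ 2 + 1 := by linarith
  subst hE hyt hy
  have h0 : X ^ 2 + Y ^ 2 ≠ 0 := by rw [hρ]; exact hρ0
  subst hR
  simp only [add_sub_cancel_right] at *
  field_simp
  linear_combination (2 * (X ^ 2 + Y ^ 2)) * key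

lemma alg_mom0 (X Y q W g f : ℝ) (hρ0 : X ^ 2 + Y ^ 2 ≠ 0) (hq : q ≠ 0)
    (hE : q ^ 2 = (X ^ 2 + Y ^ 2 + 1) - 1 - (X ^ 2 + Y ^ 2 + 1) * W ^ 2 - g ^ 2 + 2 * g * W) :
    -(q / (X ^ 2 + Y ^ 2)) * (-(q / (X ^ 2 + Y ^ 2)) * X - (g - W) / (X ^ 2 + Y ^ 2) * Y)
     + X * ((-((1 - W ^ 2 - (X ^ 2 + Y ^ 2 + 1) * W * f + g * f) / (2 * q * (X ^ 2 + Y ^ 2))) + q / (X ^ 2 + Y ^ 2) ^ 2) * (-2 * q))
     - ((g - W) / (X ^ 2 + Y ^ 2) * (-(q / (X ^ 2 + Y ^ 2)) * Y + (g - W) / (X ^ 2 + Y ^ 2) * X)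
      + Y * ((-(1 / 2 * f / (X ^ 2 + Y ^ 2)) - (g - W) / (X ^ 2 + Y ^ 2) ^ 2) * (-2 * q)))
     + f * (((X ^ 2 + Y ^ 2 + 1) * W - g) / (2 * (X ^ 2 + Y ^ 2)) * (2 * X) + q * (Y / (X ^ 2 + Y ^ 2))) = 0 := by
  field_simp
  linear_combination (-X) * hE
lemma alg_mom1 (X Y q W g f : ℝ) (hρ0 : X ^ 2 + Y ^ 2 ≠ 0) (hq : q ≠ 0)
    (hE : q ^ 2 = (X ^ 2 + Y ^ 2 + 1) - 1 - (X ^ 2 + Y ^ 2 + 1) * W ^ 2 - g ^ 2 + 2 * g * W) :
    -(q / (X ^ 2 + Y ^ 2)) * (-(q / (X ^ 2 + Y ^ 2)) * Y + (g - W) / (X ^ 2 + Y ^ 2) * X)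
     + Y * ((-((1 - W ^ 2 - (X ^ 2 + Y ^ 2 + 1) * W * f + g * f) / (2 * q * (X ^ 2 + Y ^ 2))) + q / (X ^ 2 + Y ^ 2) ^ 2) * (-2 * q))
     + ((g - W) / (X ^ 2 + Y ^ 2) * (-(q / (X ^ 2 + Y ^ 2)) * X - (g - W) / (X ^ 2 + Y ^ 2) * Y)
      + X * ((-(1 / 2 * f / (X ^ 2 + Y ^ 2)) - (g - W) / (X ^ 2 + Y ^ 2) ^ 2) * (-2 * q)))
     + f * (((X ^ 2 + Y ^ 2 + 1) * W - g) / (2 * (X ^ 2 + Y ^ 2)) * (2 * Y) - q * (X / (X ^ 2 + Y ^ 2))) = 0 := by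
  field_simp
  linear_combination (-Y) * hE
lemma alg_norm (X Y q W g : ℝ) (hρ0 : X ^ 2 + Y ^ 2 ≠ 0) 
    (hE : q ^ 2 = (X ^ 2 + Y ^ 2 + 1) - 1 - (X ^ 2 + Y ^ 2 + 1) * W ^ 2 - g ^ 2 + 2 * g * W) :
    (-(q / (X ^ 2 + Y ^ 2)) * X - (g - W) / (X ^ 2 + Y ^ 2) * Y) ^ 2 + (-(q / (X ^ 2 + Y ^ 2)) * Y + (g - W) / (X ^ 2 + Y ^ 2) * X) ^ 2 + W ^ 2 = 1 := by
  field_simp
  linear_combination  (X ^ 2 + Y ^ 2) * hE

namespace Setup

variable (s : Setup)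

lemma R_sub (x : E3) : RR x - 1 = x 0 ^ 2 + x 1 ^ 2 := by simp [RR]

/-- derivative of a function of `(R, τ)` -/
lemma hasFDerivAt_comp {x : E3} (hx : x ∈ s.U) {H : ℝ × ℝ → ℝ} {a b : ℝ}
    (hH : HasFDerivAt H (a • ContinuousLinearMap.fst ℝ ℝ ℝ + b • ContinuousLinearMap.snd ℝ ℝ ℝ)
      (s.pt x)) :
    HasFDerivAt (fun x => H (s.pt x)) (a • dRR x + b • s.dτ x) x := by
  have := hH.comp x (s.hasFDerivAt_pt hx)
  refine this.congr_fderiv ?_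
  ext v
  simp

noncomputable def alR (a : ℝ × ℝ) : ℝ := (-(s.d.ER a / (2 * s.d.q a * (a.1 - 1))) + s.d.q a / (a.1 - 1) ^ 2)
noncomputable def alt (a : ℝ × ℝ) : ℝ := (-(s.d.Et a / (2 * s.d.q a * (a.1 - 1))))
noncomputable def beR (a : ℝ × ℝ) : ℝ := (-(1 / 2 * s.d.f a.2 / (a.1 - 1)) - (s.d.g a.2 - s.d.W a) / (a.1 - 1) ^ 2)
noncomputable def bet (a : ℝ × ℝ) : ℝ := ((gd (s.d.f a.2) (s.d.G a.2) (s.d.g a.2) - s.d.Wt a) / (a.1 - 1))

noncomputable def du0 (x : E3) : E3 →L[ℝ] ℝ :=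
  (s.d.al (s.pt x)) • co 0 + x 0 • (s.alR (s.pt x) • dRR x + s.alt (s.pt x) • s.dτ x)
   - ((s.d.be (s.pt x)) • co 1 + x 1 • (s.beR (s.pt x) • dRR x + s.bet (s.pt x) • s.dτ x))

noncomputable def du1 (x : E3) : E3 →L[ℝ] ℝ :=
  (s.d.al (s.pt x)) • co 1 + x 1 • (s.alR (s.pt x) • dRR x + s.alt (s.pt x) • s.dτ x)
   + ((s.d.be (s.pt x)) • co 0 + x 0 • (s.beR (s.pt x) • dRR x + s.bet (s.pt x) • s.dτ x))

noncomputable def du2 (x : E3) : E3 →L[ℝ] ℝ :=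
  (1 / 2 * s.d.f (s.τ x)) • dRR x + s.d.Wt (s.pt x) • s.dτ x

noncomputable def du (x : E3) : E3 →L[ℝ] E3 :=
  LinearMap.toContinuousLinearMap
    { toFun := fun v => !₂[s.du0 x v, s.du1 x v, s.du2 x v]
      map_add' := by
        intro v w
        ext i
        fin_cases i <;> simp
      map_smul' := by
        intro c v
        ext i
        fin_cases i <;> simp }

lemma hasFDerivAt_u {x : E3} (hx : x ∈ s.U) : HasFDerivAt s.u (s.du x) x := by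
  rw [← hasFDerivWithinAt_univ, hasFDerivWithinAt_euclidean]
  intro i
  rw [hasFDerivWithinAt_univ]
  have hal := s.hasFDerivAt_comp hx (s.d.hasFDerivAt_al (s.mem x hx))
  have hbe := s.hasFDerivAt_comp hx (s.d.hasFDerivAt_be (s.mem x hx))
  have hW := s.hasFDerivAt_comp hx (s.d.hasFDerivAt_W _ (s.mem x hx).1)
  have h0 := hasFDerivAt_co 0 x
  have h1 := hasFDerivAt_co 1 x
  fin_cases i
  · have := (hal.mul h0).sub (hbe.mul h1)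
    simp only [u]
    refine this.congr_fderiv ?_
    ext v
    simp [du, du0, alR, alt, beR, bet]
  · have := (hal.mul h1).add (hbe.mul h0)
    simp only [u]
    refine this.congr_fderiv ?_
    ext v
    simp [du, du1, alR, alt, beR, bet]
  · simp only [u]
    refine hW.congr_fderiv ?_
    ext v
    simp [du, du2, pt]

lemma u0 (x : E3) : s.u x 0 = s.d.al (s.pt x) * x 0 - s.d.be (s.pt x) * x 1 := by simp [u]
lemma u1 (x : E3) : s.u x 1 = s.d.al (s.pt x) * x 1 + s.d.be (s.pt x) * x 0 := by simp [u]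
lemma u2 (x : E3) : s.u x 2 = s.d.W (s.pt x) := by simp [u]

lemma dRR_apply (x v : E3) : dRR x v = 2 * x 0 * v 0 + 2 * x 1 * v 1 := by simp [dRR]
lemma dxi_apply (x v : E3) : dxi x v = v 2 + x 1 / (x 0 ^ 2 + x 1 ^ 2) * v 0
    - x 0 / (x 0 ^ 2 + x 1 ^ 2) * v 1 := by simp [dxi]

lemma dτ_apply (x v : E3) : s.dτ x v = s.d.y (s.pt x) / (2 * (RR x - 1)) * dRR x v
    + s.d.q (s.pt x) * dxi x v := by simp [dτ, pt]

lemma rho_ne {x : E3} (hx : x ∈ s.U) : x 0 ^ 2 + x 1 ^ 2 ≠ 0 := by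
  have := s.x0 x hx
  positivity

lemma dRR_u {x : E3} (hx : x ∈ s.U) : dRR x (s.u x) = -2 * s.d.q (s.pt x) := by
  have h := s.rho_ne hx
  rw [dRR_apply, u0, u1]
  simp only [Data.al, pt, R_sub]
  field_simp
  ring

lemma dτ_u {x : E3} (hx : x ∈ s.U) : s.dτ x (s.u x) = 0 := by
  have h := s.rho_ne hx
  rw [dτ_apply, s.dRR_u hx, dxi_apply, u0, u1, u2]
  simp only [Data.al, Data.be, Data.y, pt, R_sub]
  field_simp
  simp only [RR]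
  ring

lemma E_eq {x : E3} (hx : x ∈ s.U) : s.d.q (s.pt x) ^ 2 =
    (x 0 ^ 2 + x 1 ^ 2 + 1) - 1 - (x 0 ^ 2 + x 1 ^ 2 + 1) * s.d.W (s.pt x) ^ 2
      - s.d.g (s.τ x) ^ 2 + 2 * s.d.g (s.τ x) * s.d.W (s.pt x) :=
  s.d.q_sq (s.mem x hx)

lemma momentum0 {x : E3} (hx : x ∈ s.U) :
    s.du0 x (s.u x) + s.d.f (s.τ x) * s.dτ x (EuclideanSpace.single 0 1) = 0 := by
  have h := s.rho_ne hx
  have hq : s.d.q (s.pt x) ≠ 0 := (s.d.q_pos (s.mem x hx)).ne'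
  have e1 : (s.pt x).1 = RR x := rfl
  have e2 : (s.pt x).2 = s.τ x := rfl
  have key := alg_mom0 (x 0) (x 1) (s.d.q (s.pt x)) (s.d.W (s.pt x)) (s.d.g (s.τ x))
    (s.d.f (s.τ x)) h hq (s.E_eq hx)
  simp only [du0, sub_apply, add_apply,
    smul_apply, smul_eq_mul, s.dτ_u hx, s.dRR_u hx, dτ_apply, dRR_apply,
    dxi_apply, alR, beR, e1, e2, R_sub]
  simp only [Data.al, Data.be, e1, e2, R_sub, Data.y, Data.ER]
  have hR : RR x = x 0 ^ 2 + x 1 ^ 2 + 1 := rfl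
  rw [hR]
  simp
  rw [u0, u1]
  simp only [Data.al, Data.be, e1, e2, R_sub]
  rw [← key]
  ring

lemma momentum1 {x : E3} (hx : x ∈ s.U) :
    s.du1 x (s.u x) + s.d.f (s.τ x) * s.dτ x (EuclideanSpace.single 1 1) = 0 := by
  have h := s.rho_ne hx
  have hq : s.d.q (s.pt x) ≠ 0 := (s.d.q_pos (s.mem x hx)).ne'
  have e1 : (s.pt x).1 = RR x := rfl
  have e2 : (s.pt x).2 = s.τ x := rfl
  have key := alg_mom1 (x 0) (x 1) (s.d.q (s.pt x)) (s.d.W (s.pt x)) (s.d.g (s.τ x))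
    (s.d.f (s.τ x)) h hq (s.E_eq hx)
  simp only [du1, sub_apply, add_apply,
    smul_apply, smul_eq_mul, s.dτ_u hx, s.dRR_u hx, dτ_apply, dRR_apply,
    dxi_apply, alR, beR, e1, e2, R_sub]
  simp only [Data.al, Data.be, e1, e2, R_sub, Data.y, Data.ER]
  have hR : RR x = x 0 ^ 2 + x 1 ^ 2 + 1 := rfl
  rw [hR]
  simp
  rw [u0, u1]
  simp only [Data.al, Data.be, e1, e2, R_sub]
  rw [← key]
  ring

lemma momentum2 {x : E3} (hx : x ∈ s.U) :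
    s.du2 x (s.u x) + s.d.f (s.τ x) * s.dτ x (EuclideanSpace.single 2 1) = 0 := by
  simp only [du2, add_apply,
    smul_apply, smul_eq_mul, s.dτ_u hx, s.dRR_u hx, dτ_apply, dRR_apply,
    dxi_apply]
  simp
  ring

lemma hasFDerivAt_p {x : E3} (hx : x ∈ s.U) :
    HasFDerivAt s.p (s.d.f (s.τ x) • s.dτ x) x :=
  (s.d.P_deriv _ (s.mem x hx).1).comp_hasFDerivAt x (s.deriv x hx)

lemma gradient_p {x : E3} (hx : x ∈ s.U) : gradient s.p x =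
    WithLp.toLp 2 ![s.d.f (s.τ x) * s.dτ x (EuclideanSpace.single 0 1),
      s.d.f (s.τ x) * s.dτ x (EuclideanSpace.single 1 1),
      s.d.f (s.τ x) * s.dτ x (EuclideanSpace.single 2 1)] := by
  apply HasGradientAt.gradient
  rw [hasGradientAt_iff_hasFDerivAt]
  refine (s.hasFDerivAt_p hx).congr_fderiv ?_
  ext v
  have hv : v = v 0 • EuclideanSpace.single (0 : Fin 3) (1:ℝ) + v 1 • EuclideanSpace.single (1 : Fin 3) (1:ℝ)
      + v 2 • EuclideanSpace.single (2 : Fin 3) (1:ℝ) := by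
    ext i
    fin_cases i <;> simp
  conv_lhs => rw [hv]
  simp only [map_add, map_smul, smul_apply, smul_eq_mul]
  simp [PiLp.inner_apply, Fin.sum_univ_three]

theorem euler {x : E3} (hx : x ∈ s.U) : fderiv ℝ s.u x (s.u x) + gradient s.p x = 0 := by
  rw [(s.hasFDerivAt_u hx).fderiv, s.gradient_p hx]
  ext i
  fin_cases i
  · simpa [du] using s.momentum0 hx
  · simpa [du] using s.momentum1 hx
  · simpa [du] using s.momentum2 hx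

theorem divfree {x : E3} (hx : x ∈ s.U) :
    ∑ i, fderiv ℝ s.u x (EuclideanSpace.single i 1) i = 0 := by
  have h := s.rho_ne hx
  have hq : s.d.q (s.pt x) ≠ 0 := (s.d.q_pos (s.mem x hx)).ne'
  have hR0 : RR x - 1 ≠ 0 := (sub_pos.2 (s.mem x hx).2.1).ne'
  have e1 : (s.pt x).1 = RR x := rfl
  have e2 : (s.pt x).2 = s.τ x := rfl
  have key := alg_div (x 0) (x 1) (RR x) (s.d.q (s.pt x)) (s.d.W (s.pt x)) (s.d.y (s.pt x))
    (s.d.g (s.τ x)) (s.d.f (s.τ x)) (s.d.Wt (s.pt x))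
    (gd (s.d.f (s.τ x)) (s.d.G (s.τ x)) (s.d.g (s.τ x))) (s.d.yt (s.pt x)) (s.d.Et (s.pt x))
    (s.d.ER (s.pt x)) (s.d.E (s.pt x)) (R_sub x).symm hR0 hq (s.d.q_sq (s.mem x hx))
    rfl rfl (s.d.key _ (s.mem x hx).1)
  rw [(s.hasFDerivAt_u hx).fderiv, Fin.sum_univ_three, ← key]
  simp only [du]
  simp
  simp only [du0, du1, du2, sub_apply, add_apply,
    smul_apply, smul_eq_mul, dτ_apply, dRR_apply,
    dxi_apply, alR, beR, alt, bet, e1, e2]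
  simp only [Data.al, Data.be, e1, e2]
  simp
  ring

theorem unit_speed {x : E3} (hx : x ∈ s.U) : s.u x 0 ^ 2 + s.u x 1 ^ 2 + s.u x 2 ^ 2 = 1 := by
  have h := s.rho_ne hx
  have e1 : (s.pt x).1 = RR x := rfl
  have e2 : (s.pt x).2 = s.τ x := rfl
  have := alg_norm (x 0) (x 1) (s.d.q (s.pt x)) (s.d.W (s.pt x)) (s.d.g (s.τ x)) h (s.E_eq hx)
  rw [u0, u1, u2]
  simp only [Data.al, Data.be, e1, e2, R_sub]
  exact this

theorem orthogonal {x : E3} (hx : x ∈ s.U) : inner ℝ (s.u x) (gradient s.p x) = 0 := by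
  rw [s.gradient_p hx]
  have h1 := s.dτ_u hx
  have hv : s.u x = s.u x 0 • EuclideanSpace.single (0 : Fin 3) (1:ℝ)
      + s.u x 1 • EuclideanSpace.single (1 : Fin 3) (1:ℝ)
      + s.u x 2 • EuclideanSpace.single (2 : Fin 3) (1:ℝ) := by
    ext i
    fin_cases i <;> simp
  rw [hv] at h1
  simp only [map_add, map_smul, smul_eq_mul] at h1
  simp [PiLp.inner_apply, Fin.sum_univ_three]
  linear_combination (s.d.f (s.τ x)) * h1

theorem grad_ne {x : E3} (hx : x ∈ s.U) : gradient s.p x ≠ 0 := by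
  rw [s.gradient_p hx]
  intro h
  have h2 := congrArg (fun v : E3 => v 2) h
  have hf := s.d.f_pos _ (s.mem x hx).1
  have hq : 0 < s.d.q (s.pt x) := s.d.q_pos (s.mem x hx)
  simp [dτ_apply, dRR_apply, dxi_apply] at h2
  rcases h2 with h2 | h2
  · exact hf.ne' h2
  · exact hq.ne' h2

end Setup

end Pool.Agent.Y304.Gav
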