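import Mathlib

set_option autoImplicit false

open Set Filter Topology
open scoped ContDiff

namespace Pool.Agent.Y304.Gav

/-- `R` is a rotation about the line through `c` with direction `d`: an isometry of space of
determinant one fixing every point of the line. -/
def IsRotationAbout (c d : EuclideanSpace ℝ (Fin 3))
    (R : EuclideanSpace ℝ (Fin 3) ≃ᵃⁱ[ℝ] EuclideanSpace ℝ (Fin 3)) : Prop :=
  LinearMap.det (R.linearIsometryEquiv.toLinearEquiv :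
    EuclideanSpace ℝ (Fin 3) →ₗ[ℝ] EuclideanSpace ℝ (Fin 3)) = 1 ∧
    ∀ t : ℝ, R (c + t • d) = c + t • d

/-- reflection in the plane orthogonal to the unit vector `n` -/
lemma reflection_formula (n v : EuclideanSpace ℝ (Fin 3)) (hn : ‖n‖ = 1) :
    (ℝ ∙ n)ᗮ.reflection v = v - (2 * inner ℝ n v) • n := by
  rw [Submodule.reflection_orthogonal_apply, Submodule.reflection_singleton_apply, hn]
  simp [two_mul, add_smul]
  ring_nf
  module

lemma det_refl (n : EuclideanSpace ℝ (Fin 3)) (hn : ‖n‖ = 1) :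
    LinearMap.det ((ℝ ∙ n)ᗮ.reflection.toLinearEquiv :
      EuclideanSpace ℝ (Fin 3) →ₗ[ℝ] EuclideanSpace ℝ (Fin 3)) = -1 := by
  have h := Submodule.det_reflection (𝕜 := ℝ) ((ℝ ∙ n)ᗮ)
  have hn0 : n ≠ 0 := by
    intro h; simp [h] at hn
  rw [Submodule.orthogonal_orthogonal, finrank_span_singleton hn0, pow_one] at h
  exact h

section

variable {n₁ n₂ : EuclideanSpace ℝ (Fin 3)} (h₁ : ‖n₁‖ = 1) (h₂ : ‖n₂‖ = 1)
  (h₁₂ : inner ℝ n₁ n₂ = 0)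

noncomputable def nn (n₁ n₂ : EuclideanSpace ℝ (Fin 3)) (s : ℝ) : EuclideanSpace ℝ (Fin 3) :=
  Real.cos s • n₁ + Real.sin s • n₂

include h₁ h₂ h₁₂ in
lemma norm_nn (s : ℝ) : ‖nn n₁ n₂ s‖ = 1 := by
  have : ‖nn n₁ n₂ s‖ ^ 2 = 1 := by
    rw [nn, norm_add_sq_real, norm_smul, norm_smul, h₁, h₂, real_inner_smul_left,
      real_inner_smul_right, h₁₂]
    simp
  have h0 := norm_nonneg (nn n₁ n₂ s)
  nlinarith

/-- the linear rotation -/
noncomputable def rotL (n₁ n₂ : EuclideanSpace ℝ (Fin 3)) (s : ℝ) :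
    EuclideanSpace ℝ (Fin 3) ≃ₗᵢ[ℝ] EuclideanSpace ℝ (Fin 3) :=
  (ℝ ∙ n₁)ᗮ.reflection.trans (ℝ ∙ (nn n₁ n₂ s))ᗮ.reflection

include h₁ h₂ h₁₂ in
lemma rotL_apply (s : ℝ) (v : EuclideanSpace ℝ (Fin 3)) :
    rotL n₁ n₂ s v = (v - (2 * inner ℝ n₁ v) • n₁)
      - (2 * inner ℝ (nn n₁ n₂ s) (v - (2 * inner ℝ n₁ v) • n₁)) • nn n₁ n₂ s := by
  rw [rotL, LinearIsometryEquiv.trans_apply, reflection_formula _ _ h₁,
    reflection_formula _ _ (norm_nn h₁ h₂ h₁₂ s)]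

include h₁ h₂ h₁₂ in
lemma det_rotL (s : ℝ) : LinearMap.det ((rotL n₁ n₂ s).toLinearEquiv :
    EuclideanSpace ℝ (Fin 3) →ₗ[ℝ] EuclideanSpace ℝ (Fin 3)) = 1 := by
  have : ((rotL n₁ n₂ s).toLinearEquiv : EuclideanSpace ℝ (Fin 3) →ₗ[ℝ] EuclideanSpace ℝ (Fin 3))
      = ((ℝ ∙ (nn n₁ n₂ s))ᗮ.reflection.toLinearEquiv :
      EuclideanSpace ℝ (Fin 3) →ₗ[ℝ] EuclideanSpace ℝ (Fin 3)) ∘ₗ ((ℝ ∙ n₁)ᗮ.reflection.toLinearEquiv :
      EuclideanSpace ℝ (Fin 3) →ₗ[ℝ] EuclideanSpace ℝ (Fin 3)) := by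
    ext v
    rfl
  rw [this, LinearMap.det_comp, det_refl _ h₁, det_refl _ (norm_nn h₁ h₂ h₁₂ s)]
  norm_num

/-- the rotation about the line through `c` orthogonal to `n₁`, `n₂` -/
noncomputable def rotA (c n₁ n₂ : EuclideanSpace ℝ (Fin 3)) (s : ℝ) :
    EuclideanSpace ℝ (Fin 3) ≃ᵃⁱ[ℝ] EuclideanSpace ℝ (Fin 3) :=
  AffineIsometryEquiv.mk' (fun x => c + rotL n₁ n₂ s (x - c)) (rotL n₁ n₂ s) c
    (by intro x; simp [add_comm])

lemma rotA_apply (c x : EuclideanSpace ℝ (Fin 3)) (s : ℝ) :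
    rotA c n₁ n₂ s x = c + rotL n₁ n₂ s (x - c) := rfl

include h₁ h₂ h₁₂ in
lemma isRotationAbout_rotA {c d : EuclideanSpace ℝ (Fin 3)} (hd₁ : inner ℝ n₁ d = 0)
    (hd₂ : inner ℝ n₂ d = 0) (s : ℝ) : IsRotationAbout c d (rotA c n₁ n₂ s) := by
  refine ⟨?_, ?_⟩
  · rw [rotA, AffineIsometryEquiv.linearIsometryEquiv_mk']
    exact det_rotL h₁ h₂ h₁₂ s
  · intro t
    rw [rotA_apply, rotL_apply h₁ h₂ h₁₂]
    simp [inner_smul_right, hd₁, nn, inner_add_left, inner_smul_left, hd₂]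

include h₁ h₂ h₁₂ in
lemma hasDerivAt_rotA (c x : EuclideanSpace ℝ (Fin 3)) :
    HasDerivAt (fun s => rotA c n₁ n₂ s x)
      ((2 * inner ℝ n₁ (x - c)) • n₂ - (2 * inner ℝ n₂ (x - c)) • n₁) 0 := by
  have e : (fun s => rotA c n₁ n₂ s x) = fun s => c + (((x - c) - (2 * inner ℝ n₁ (x - c)) • n₁)
      - (2 * (Real.cos s * (inner ℝ n₁ ((x - c) - (2 * inner ℝ n₁ (x - c)) • n₁))
        + Real.sin s * (inner ℝ n₂ ((x - c) - (2 * inner ℝ n₁ (x - c)) • n₁)))) •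
          (Real.cos s • n₁ + Real.sin s • n₂)) := by
    ext1 s
    rw [rotA_apply, rotL_apply h₁ h₂ h₁₂]
    congr 3
    simp only [nn, inner_add_left, inner_smul_left]
    simp
  rw [e]
  set w := (x - c) - (2 * inner ℝ n₁ (x - c)) • n₁ with hw
  have hw1 : inner ℝ n₁ w = - inner ℝ n₁ (x - c) := by
    rw [hw, inner_sub_right, inner_smul_right, real_inner_self_eq_norm_sq, h₁]
    ring
  have hw2 : inner ℝ n₂ w = inner ℝ n₂ (x - c) := by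
    rw [hw, inner_sub_right, inner_smul_right, real_inner_comm n₁ n₂, h₁₂]
    ring
  have hc := Real.hasDerivAt_cos 0
  have hs := Real.hasDerivAt_sin 0
  have h1 := (((hc.mul_const (inner ℝ n₁ w)).add (hs.mul_const (inner ℝ n₂ w))).const_mul 2).smul
    ((hc.smul_const n₁).add (hs.smul_const n₂))
  have h2 := (h1.const_sub w).const_add c
  refine h2.congr_deriv ?_
  simp
  rw [hw1, hw2]
  module

end

/-- existence of an orthonormal pair orthogonal to `d` -/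
lemma exists_pair {d : EuclideanSpace ℝ (Fin 3)} (hd : d ≠ 0) :
    ∃ n₁ n₂ : EuclideanSpace ℝ (Fin 3), ‖n₁‖ = 1 ∧ ‖n₂‖ = 1 ∧ inner ℝ n₁ n₂ = 0 ∧
      inner ℝ n₁ d = 0 ∧ inner ℝ n₂ d = 0 := by
  have : Fact (Module.finrank ℝ (EuclideanSpace ℝ (Fin 3)) = 2 + 1) := ⟨by simp⟩
  have h : Module.finrank ℝ (ℝ ∙ d)ᗮ = 2 :=
    Submodule.finrank_orthogonal_span_singleton hd
  set b := (stdOrthonormalBasis ℝ (ℝ ∙ d)ᗮ).reindex (finCongr h)
  have hmem : ∀ v : (ℝ ∙ d)ᗮ, inner ℝ (v : EuclideanSpace ℝ (Fin 3)) d = 0 := by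
    intro v
    have := v.2
    rw [Submodule.mem_orthogonal_singleton_iff_inner_left] at this
    exact this
  refine ⟨b 0, b 1, ?_, ?_, ?_, hmem _, hmem _⟩
  · exact b.orthonormal.1 0
  · exact b.orthonormal.1 1
  · exact b.orthonormal.2 (show (0 : Fin 2) ≠ 1 by decide)

end Pool.Agent.Y304.Gav
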