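import Mathlib
import Pool.Agent.Y304.Gav.Eqs
import Pool.Agent.Y304.Gav.Rot

set_option autoImplicit false

open Set Filter Topology
open scoped ContDiff

namespace Pool.Agent.Y304.Gav

lemma rotA_zero {n₁ n₂ : E3} (h₁ : ‖n₁‖ = 1) (h₂ : ‖n₂‖ = 1) (h₁₂ : inner ℝ n₁ n₂ = 0) (c x : E3) :
    rotA c n₁ n₂ 0 x = x := by
  rw [rotA_apply, rotL_apply h₁ h₂ h₁₂]
  simp [nn, inner_sub_right, inner_smul_right, h₁]
  module

/-- the helix -/
noncomputable def helix (x : E3) (θ : ℝ) : E3 :=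
  !₂[x 0 * Real.cos θ - x 1 * Real.sin θ, x 0 * Real.sin θ + x 1 * Real.cos θ, x 2 + θ]

noncomputable def KK (x : E3) : E3 := !₂[-x 1, x 0, 1]

lemma helix_zero (x : E3) : helix x 0 = x := by
  ext i
  fin_cases i <;> simp [helix]

lemma hasDerivAt_helix (x : E3) (θ : ℝ) : HasDerivAt (helix x) (KK (helix x θ)) θ := by
  rw [hasDerivAt_iff_hasFDerivAt, ← hasFDerivWithinAt_univ, hasFDerivWithinAt_euclidean]
  intro i
  rw [hasFDerivWithinAt_univ]
  have hc := Real.hasDerivAt_cos θ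
  have hs := Real.hasDerivAt_sin θ
  fin_cases i
  · have := ((hc.const_mul (x 0)).sub (hs.const_mul (x 1))).hasFDerivAt
    simp only [helix]
    refine this.congr_fderiv ?_
    ext
    simp [KK]
    ring
  · have := ((hs.const_mul (x 0)).add (hc.const_mul (x 1))).hasFDerivAt
    simp only [helix]
    refine this.congr_fderiv ?_
    ext
    simp [KK]
    ring
  · have := ((hasDerivAt_id θ).const_add (x 2)).hasFDerivAt
    simp only [helix]
    refine this.congr_fderiv ?_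
    ext
    simp [KK]

lemma continuous_helix (x : E3) : Continuous (helix x) :=
  continuous_iff_continuousAt.2 fun θ => (hasDerivAt_helix x θ).continuousAt

lemma RR_helix (x : E3) (θ : ℝ) : RR (helix x θ) = RR x := by
  simp [RR, helix]
  linear_combination (x 0 ^ 2 + x 1 ^ 2) * Real.sin_sq_add_cos_sq θ

/-- linear algebra at the end -/
lemma final_alg (X Y Z a b a' b' c' : ℝ) (h : X ^ 2 + Y ^ 2 ≠ 0)
    (F0 : Z * (a * X + b * Y) + (a' * X + b' * Y) + c' = 0)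
    (F1 : (a * X + b * Y) + Z * (b * X - a * Y) + (b' * X - a' * Y) = 0)
    (F2 : 2 * (b * X - a * Y) - Z * (a * X + b * Y) - (a' * X + b' * Y) = 0)
    (F3 : -3 * (a * X + b * Y) - Z * (b * X - a * Y) - (b' * X - a' * Y) = 0)
    (F4 : -4 * (b * X - a * Y) + Z * (a * X + b * Y) + (a' * X + b' * Y) = 0) :
    a = 0 ∧ b = 0 ∧ a' = 0 ∧ b' = 0 ∧ c' = 0 := by
  have e1 : a * X + b * Y = 0 := by linarith
  have e2 : b * X - a * Y = 0 := by linarith
  have ha : a = 0 := by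
    have : a * (X ^ 2 + Y ^ 2) = 0 := by linear_combination X * e1 - Y * e2
    exact (mul_eq_zero.1 this).resolve_right h
  have hb : b = 0 := by
    have : b * (X ^ 2 + Y ^ 2) = 0 := by linear_combination Y * e1 + X * e2
    exact (mul_eq_zero.1 this).resolve_right h
  subst ha hb
  have e3 : a' * X + b' * Y = 0 := by linarith
  have e4 : b' * X - a' * Y = 0 := by linarith
  have ha : a' = 0 := by
    have : a' * (X ^ 2 + Y ^ 2) = 0 := by linear_combination X * e3 - Y * e4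
    exact (mul_eq_zero.1 this).resolve_right h
  have hb : b' = 0 := by
    have : b' * (X ^ 2 + Y ^ 2) = 0 := by linear_combination Y * e3 + X * e4
    exact (mul_eq_zero.1 this).resolve_right h
  subst ha hb
  refine ⟨rfl, rfl, rfl, rfl, by linarith⟩

/-- differentiate an identity along an interval -/
lemma deriv_zero_of_zero {F F' : ℝ → ℝ} {ε : ℝ} (h0 : ∀ θ ∈ Ioo (-ε) ε, F θ = 0)
    (h1 : ∀ θ ∈ Ioo (-ε) ε, HasDerivAt F (F' θ) θ) : ∀ θ ∈ Ioo (-ε) ε, F' θ = 0 := by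
  intro θ hθ
  have h2 : HasDerivAt F 0 θ := by
    refine (hasDerivAt_const θ (0:ℝ)).congr_of_eventuallyEq ?_
    filter_upwards [isOpen_Ioo.mem_nhds hθ] with t ht using h0 t ht
  exact (h1 θ hθ).unique h2

lemma helix_alg (x : E3) (hx : x 0 ^ 2 + x 1 ^ 2 ≠ 0) (a b a' b' c' ε : ℝ) (hε : 0 < ε)
    (h : ∀ θ ∈ Ioo (-ε) ε, helix x θ 2 * (a * helix x θ 0 + b * helix x θ 1)
      + (a' * helix x θ 0 + b' * helix x θ 1) + c' = 0) :
    a = 0 ∧ b = 0 ∧ a' = 0 ∧ b' = 0 ∧ c' = 0 := by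
  have hX : ∀ θ, HasDerivAt (fun θ => helix x θ 0) (-helix x θ 1) θ := by
    intro θ
    have := (hasFDerivAt_co 0 (helix x θ)).comp_hasDerivAt θ (hasDerivAt_helix x θ)
    have h2 : co 0 (KK (helix x θ)) = -helix x θ 1 := by simp [KK]
    rw [h2] at this
    exact this
  have hY : ∀ θ, HasDerivAt (fun θ => helix x θ 1) (helix x θ 0) θ := by
    intro θ
    have := (hasFDerivAt_co 1 (helix x θ)).comp_hasDerivAt θ (hasDerivAt_helix x θ)
    have h2 : co 1 (KK (helix x θ)) = helix x θ 0 := by simp [KK]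
    rw [h2] at this
    exact this
  have hZ : ∀ θ, HasDerivAt (fun θ => helix x θ 2) 1 θ := by
    intro θ
    have := (hasFDerivAt_co 2 (helix x θ)).comp_hasDerivAt θ (hasDerivAt_helix x θ)
    have h2 : co 2 (KK (helix x θ)) = 1 := by simp [KK]
    rw [h2] at this
    exact this
  have gen : ∀ (A B C D : ℝ) (k : ℝ), ∀ θ, HasDerivAt (fun θ => helix x θ 2 * (A * helix x θ 0 + B * helix x θ 1)
      + (C * helix x θ 0 + D * helix x θ 1) + k)
      ((A * helix x θ 0 + B * helix x θ 1) + helix x θ 2 * (B * helix x θ 0 - A * helix x θ 1)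
        + (D * helix x θ 0 - C * helix x θ 1)) θ := by
    intro A B C D k θ
    have := (((hZ θ).mul (((hX θ).const_mul A).add ((hY θ).const_mul B))).add
      (((hX θ).const_mul C).add ((hY θ).const_mul D))).add_const k
    refine this.congr_deriv ?_
    simp
    ring
  have F1 := deriv_zero_of_zero h (fun θ _ => gen a b a' b' c' θ)
  have F1' : ∀ θ ∈ Ioo (-ε) ε, helix x θ 2 * (b * helix x θ 0 + (-a) * helix x θ 1)
      + ((a + b') * helix x θ 0 + (b - a') * helix x θ 1) + 0 = 0 := by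
    intro θ hθ
    linear_combination F1 θ hθ
  have F2 := deriv_zero_of_zero F1' (fun θ _ => gen _ _ _ _ _ θ)
  have F2' : ∀ θ ∈ Ioo (-ε) ε, helix x θ 2 * ((-a) * helix x θ 0 + (-b) * helix x θ 1)
      + ((2 * b - a') * helix x θ 0 + (-2 * a - b') * helix x θ 1) + 0 = 0 := by
    intro θ hθ
    linear_combination F2 θ hθ
  have F3 := deriv_zero_of_zero F2' (fun θ _ => gen _ _ _ _ _ θ)
  have F3' : ∀ θ ∈ Ioo (-ε) ε, helix x θ 2 * ((-b) * helix x θ 0 + (a) * helix x θ 1)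
      + ((-3 * a - b') * helix x θ 0 + (-3 * b + a') * helix x θ 1) + 0 = 0 := by
    intro θ hθ
    linear_combination F3 θ hθ
  have F4 := deriv_zero_of_zero F3' (fun θ _ => gen _ _ _ _ _ θ)
  have h00 : (0:ℝ) ∈ Ioo (-ε) ε := ⟨by linarith, hε⟩
  have G0 := h 0 h00
  have G1 := F1 0 h00
  have G2 := F2 0 h00
  have G3 := F3 0 h00
  have G4 := F4 0 h00
  simp only [helix_zero] at G0 G1 G2 G3 G4
  exact final_alg (x 0) (x 1) (x 2) a b a' b' c' hx G0 G1 (by linarith) (by linarith) (by linarith)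

namespace Setup

variable (s : Setup)

lemma dτ_KK {x : E3} (hx : x ∈ s.U) : s.dτ x (KK x) = 0 := by
  have h := s.rho_ne hx
  rw [dτ_apply, dRR_apply, dxi_apply]
  have e2 : 1 + x 1 / (x 0 ^ 2 + x 1 ^ 2) * (-x 1) - x 0 / (x 0 ^ 2 + x 1 ^ 2) * x 0 = 0 := by
    field_simp
    ring
  have k0 : KK x 0 = - x 1 := by simp [KK]
  have k1 : KK x 1 = x 0 := by simp [KK]
  have k2 : KK x 2 = 1 := by simp [KK]
  rw [k0, k1, k2, e2]
  ring

lemma τ_helix {x : E3} {ε : ℝ} (hε : 0 < ε) (h : ∀ θ ∈ Ioo (-ε) ε, helix x θ ∈ s.U) :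
    ∀ θ ∈ Ioo (-ε) ε, s.τ (helix x θ) = s.τ x := by
  have hd : ∀ θ ∈ Ioo (-ε) ε, HasDerivAt (fun θ => s.τ (helix x θ)) 0 θ := by
    intro θ hθ
    have := (s.deriv _ (h θ hθ)).comp_hasDerivAt θ (hasDerivAt_helix x θ)
    refine this.congr_deriv ?_
    exact s.dτ_KK (h θ hθ)
  intro θ hθ
  have h00 : (0:ℝ) ∈ Ioo (-ε) ε := ⟨by linarith, hε⟩
  have := (convex_Ioo (-ε) ε).is_const_of_fderivWithin_eq_zero (𝕜 := ℝ) (f := fun θ => s.τ (helix x θ))
    (fun θ hθ => (hd θ hθ).differentiableAt.differentiableWithinAt) ?_ hθ h00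
  · simpa [helix_zero] using this
  · intro t ht
    rw [fderivWithin_of_isOpen isOpen_Ioo ht]
    have := (hd t ht).hasFDerivAt.fderiv
    rw [this]
    ext
    simp

/-- the pressure is not invariant under the rotations about any line, on any nonempty open set -/
theorem not_rot_invariant {V : Set E3} (hV : V ⊆ s.U) (hVo : IsOpen V) (hVn : V.Nonempty)
    (c n₁ n₂ : E3) (h₁ : ‖n₁‖ = 1) (h₂ : ‖n₂‖ = 1) (h₁₂ : inner ℝ n₁ n₂ = 0)
    (H : ∀ (t : ℝ), ∀ x ∈ V, rotA c n₁ n₂ t x ∈ V → s.p (rotA c n₁ n₂ t x) = s.p x) : False := by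
  -- infinitesimal invariance
  have key : ∀ x ∈ V, s.dτ x ((inner ℝ n₁ (x - c)) • n₂ - (inner ℝ n₂ (x - c)) • n₁) = 0 := by
    intro x hx
    have hR := hasDerivAt_rotA (n₁ := n₁) (n₂ := n₂) h₁ h₂ h₁₂ c x
    have hz := rotA_zero h₁ h₂ h₁₂ c x
    have hp : HasFDerivAt s.p (s.d.f (s.τ x) • s.dτ x) (rotA c n₁ n₂ 0 x) := by
      rw [hz]; exact s.hasFDerivAt_p (hV hx)
    have h3 := hp.comp_hasDerivAt (0:ℝ) hR
    have hev : ∀ᶠ t in 𝓝 (0:ℝ), rotA c n₁ n₂ t x ∈ V := by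
      refine hR.continuousAt.eventually (hVo.mem_nhds ?_)
      show rotA c n₁ n₂ 0 x ∈ V
      rw [hz]; exact hx
    have h4 : HasDerivAt (s.p ∘ fun t => rotA c n₁ n₂ t x) 0 0 := by
      refine (hasDerivAt_const (0:ℝ) (s.p x)).congr_of_eventuallyEq ?_
      filter_upwards [hev] with t ht
      exact H t x hx ht
    have h5 := h3.unique h4
    have hf := (s.d.f_pos _ (s.mem x (hV hx)).1).ne'
    rw [ContinuousLinearMap.smul_apply, smul_eq_mul] at h5
    have h6 := (mul_eq_zero.1 h5).resolve_left hf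
    simp only [map_sub, map_smul, smul_eq_mul] at h6 ⊢
    linarith
  obtain ⟨x, hx⟩ := hVn
  obtain ⟨ε, hε, hεV⟩ : ∃ ε > 0, ∀ θ ∈ Ioo (-ε) ε, helix x θ ∈ V := by
    have : ∀ᶠ θ in 𝓝 (0:ℝ), helix x θ ∈ V := by
      refine (continuous_helix x).continuousAt.eventually (hVo.mem_nhds ?_)
      rw [helix_zero]; exact hx
    obtain ⟨ε, hε, h⟩ := Metric.eventually_nhds_iff.1 this
    refine ⟨ε, hε, fun θ hθ => h ?_⟩
    rw [Real.dist_eq, sub_zero]
    exact abs_lt.2 hθ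
  have hτ := s.τ_helix hε (fun θ hθ => hV (hεV θ hθ))
  -- constants
  set Y := s.d.y (s.pt x) with hY
  set Q := s.d.q (s.pt x) with hQ
  have hQpos : 0 < Q := s.d.q_pos (s.mem x (hV hx))
  set ρ := x 0 ^ 2 + x 1 ^ 2 with hρ
  have hρ0 : ρ ≠ 0 := s.rho_ne (hV hx)
  set w0 := n₂ 2 * n₁ 1 - n₁ 2 * n₂ 1 with hw0
  set w1 := n₂ 0 * n₁ 2 - n₁ 0 * n₂ 2 with hw1
  set w2 := n₂ 1 * n₁ 0 - n₁ 1 * n₂ 0 with hw2
  set e0 := -(w1 * c 2 - w2 * c 1) with he0
  set e1 := -(w2 * c 0 - w0 * c 2) with he1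
  set e2 := -(w0 * c 1 - w1 * c 0) with he2
  have hfin := helix_alg x hρ0 (Y * w1 + Q * w0) (-Y * w0 + Q * w1)
    (Y * e0 - Q * ρ * w1 - Q * e1) (Y * e1 + Q * ρ * w0 + Q * e0) (Q * ρ * (e2 - w2)) ε hε ?_
  · obtain ⟨ha, hb, ha', hb', hc'⟩ := hfin
    have hw0' : w0 = 0 := by
      have : w0 * (Q ^ 2 + Y ^ 2) = 0 := by linear_combination Q * ha - Y * hb
      exact (mul_eq_zero.1 this).resolve_right (by positivity)
    have hw1' : w1 = 0 := by
      have : w1 * (Q ^ 2 + Y ^ 2) = 0 := by linear_combination Y * ha + Q * hb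
      exact (mul_eq_zero.1 this).resolve_right (by positivity)
    have he2' : e2 = w2 := by
      have : e2 - w2 = 0 := (mul_eq_zero.1 hc').resolve_left (mul_ne_zero hQpos.ne' hρ0)
      linarith
    have hw2' : w2 = 0 := by
      rw [← he2', he2, hw0', hw1']; ring
    -- Lagrange identity
    have hn1 : n₁ 0 ^ 2 + n₁ 1 ^ 2 + n₁ 2 ^ 2 = 1 := by
      have := EuclideanSpace.norm_eq n₁
      rw [h₁, Fin.sum_univ_three] at this
      have h := congrArg (fun t => t ^ 2) this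
      simp only [Real.norm_eq_abs, sq_abs] at h
      rw [Real.sq_sqrt (by positivity)] at h
      linarith
    have hn2 : n₂ 0 ^ 2 + n₂ 1 ^ 2 + n₂ 2 ^ 2 = 1 := by
      have := EuclideanSpace.norm_eq n₂
      rw [h₂, Fin.sum_univ_three] at this
      have h := congrArg (fun t => t ^ 2) this
      simp only [Real.norm_eq_abs, sq_abs] at h
      rw [Real.sq_sqrt (by positivity)] at h
      linarith
    have hn12 : n₁ 0 * n₂ 0 + n₁ 1 * n₂ 1 + n₁ 2 * n₂ 2 = 0 := by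
      have := h₁₂
      simp [PiLp.inner_apply, Fin.sum_univ_three] at this
      linarith
    have hL : w0 ^ 2 + w1 ^ 2 + w2 ^ 2 = (n₁ 0 ^ 2 + n₁ 1 ^ 2 + n₁ 2 ^ 2) * (n₂ 0 ^ 2 + n₂ 1 ^ 2 + n₂ 2 ^ 2)
        - (n₁ 0 * n₂ 0 + n₁ 1 * n₂ 1 + n₁ 2 * n₂ 2) ^ 2 := by
      rw [hw0, hw1, hw2]; ring
    rw [hn1, hn2, hn12, hw0', hw1', hw2'] at hL
    norm_num at hL
  · intro θ hθ
    have hk := key _ (hεV θ hθ)
    have hRR : RR (helix x θ) = RR x := RR_helix x θ
    have hpt : s.pt (helix x θ) = s.pt x := by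
      simp only [pt, hRR, hτ θ hθ]
    have hrho : helix x θ 0 ^ 2 + helix x θ 1 ^ 2 = ρ := by
      have := hRR
      simp only [RR] at this
      rw [hρ]; linarith
    rw [dτ_apply, hpt, dRR_apply, dxi_apply, R_sub, hrho, ← hY, ← hQ] at hk
    set A := helix x θ 0 with hA
    set B := helix x θ 1 with hB
    set C := helix x θ 2 with hC
    set J : E3 := inner ℝ n₁ (helix x θ - c) • n₂ - inner ℝ n₂ (helix x θ - c) • n₁ with hJ
    have hi1 : inner ℝ n₁ (helix x θ - c) = n₁ 0 * (A - c 0) + n₁ 1 * (B - c 1) + n₁ 2 * (C - c 2) := by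
      simp [PiLp.inner_apply, Fin.sum_univ_three, hA, hB, hC]
      ring
    have hi2 : inner ℝ n₂ (helix x θ - c) = n₂ 0 * (A - c 0) + n₂ 1 * (B - c 1) + n₂ 2 * (C - c 2) := by
      simp [PiLp.inner_apply, Fin.sum_univ_three, hA, hB, hC]
      ring
    have hJ0 : J 0 = w1 * C - w2 * B + e0 := by
      rw [hJ, hi1, hi2]
      simp [he0, hw0, hw1, hw2]
      ring
    have hJ1 : J 1 = w2 * A - w0 * C + e1 := by
      rw [hJ, hi1, hi2]
      simp [he1, hw0, hw1, hw2]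
      ring
    have hJ2 : J 2 = w0 * B - w1 * A + e2 := by
      rw [hJ, hi1, hi2]
      simp [he2, hw0, hw1, hw2]
      ring
    have hk' : Y * (A * J 0 + B * J 1) + Q * (ρ * J 2 + B * J 0 - A * J 1) = 0 := by
      have e : Y * (A * J 0 + B * J 1) + Q * (ρ * J 2 + B * J 0 - A * J 1)
          = ρ * (Y / (2 * ρ) * (2 * A * J 0 + 2 * B * J 1)
            + Q * (J 2 + B / ρ * J 0 - A / ρ * J 1)) := by
        field_simp
      rw [e, hk, mul_zero]
    rw [hJ0, hJ1, hJ2] at hk'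
    have hAB : A ^ 2 + B ^ 2 = ρ := hrho
    linear_combination hk' + Q * w2 * hAB

end Setup

end Pool.Agent.Y304.Gav
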