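import Mathlib
import Pool.Agent.Y304.Gav.Nonaxi

set_option autoImplicit false

open Set Filter Topology
open scoped ContDiff Matrix

namespace Pool.Agent.Y304.Gav

/-- the identification of `Fin 3 → ℝ` with Euclidean space -/
noncomputable def ee : (Fin 3 → ℝ) ≃L[ℝ] E3 :=
  (PiLp.continuousLinearEquiv 2 ℝ (fun _ : Fin 3 => ℝ)).symm

lemma ee_apply (x : Fin 3 → ℝ) (i : Fin 3) : ee x i = x i := rfl

lemma ee_symm_apply (x : E3) (i : Fin 3) : ee.symm x i = x i := rfl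

lemma ee_single (i : Fin 3) : ee (Pi.single i 1) = EuclideanSpace.single i (1:ℝ) := by
  ext j
  rw [ee_apply]
  simp [Pi.single_apply]

lemma vec_eq (v : E3) : v = v 0 • EuclideanSpace.single (0 : Fin 3) (1:ℝ)
      + v 1 • EuclideanSpace.single (1 : Fin 3) (1:ℝ)
      + v 2 • EuclideanSpace.single (2 : Fin 3) (1:ℝ) := by
  ext i
  fin_cases i <;> simp

lemma map_eq_sum (L : E3 →L[ℝ] E3) (v : E3) (i : Fin 3) :
    L v i = ∑ j, v j * L (EuclideanSpace.single j 1) i := by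
  conv_lhs => rw [vec_eq v]
  simp [Fin.sum_univ_three]

lemma inner_eq (v w : E3) : inner ℝ v w = ∑ j, v j * w j := by
  simp only [PiLp.inner_apply, Fin.sum_univ_three]
  simp
  ring

/-- reflection matrix -/
noncomputable def Hm (n : Fin 3 → ℝ) : Matrix (Fin 3) (Fin 3) ℝ := 1 - (2:ℝ) • Matrix.vecMulVec n n

lemma Hm_transpose (n : Fin 3 → ℝ) : (Hm n)ᵀ = Hm n := by
  ext i j
  simp [Hm, Matrix.vecMulVec, Matrix.one_apply, eq_comm]
  ring

lemma Hm_mulVec (n v : Fin 3 → ℝ) : Hm n *ᵥ v = v - (2 * (n ⬝ᵥ v)) • n := by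
  rw [Hm, Matrix.sub_mulVec, Matrix.one_mulVec, Matrix.smul_mulVec, Matrix.vecMulVec_mulVec]
  ext i
  simp
  ring

lemma Hm_mul_self (n : Fin 3 → ℝ) (hn : n ⬝ᵥ n = 1) : Hm n * Hm n = 1 := by
  apply Matrix.ext_of_mulVec_single
  intro i
  rw [← Matrix.mulVec_mulVec, Hm_mulVec, Hm_mulVec, Matrix.one_mulVec]
  rw [dotProduct_sub, dotProduct_smul, hn]
  ext j
  simp
  ring

lemma Hm_det (n : Fin 3 → ℝ) (hn : n ⬝ᵥ n = 1) : (Hm n).det = -1 := by
  rw [Matrix.det_fin_three]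
  simp [dotProduct, Fin.sum_univ_three] at hn
  simp [Hm, Matrix.vecMulVec]
  linear_combination (-2) * hn

end Pool.Agent.Y304.Gav
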